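import Pool.Agent.TH306.N4.Defs

/-!
The ideal of the affine chart `x_i = 1`, `y_j = 1` of a bihomogeneous prime ideal is prime.
-/

set_option autoImplicit false

namespace Pool.Agent.TH611.M5

open MvPolynomial Module Pool.Agent.TH279.GR Pool.Agent.TH306.N4

variable {a b : ℕ}

/-- `x_k ↦ x_k / x_i`, `y_l ↦ y_l / y_j` -/
noncomputable def toK (i : Fin (a + 1)) (j : Fin (b + 1)) (P : Ideal (Co a b)) [P.IsPrime] :
    Co a b →ₐ[ℂ] KK P :=
  aeval (Sum.elim (fun k => im P (X (Sum.inl k)) / im P (X (Sum.inl i)))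
    (fun l => im P (X (Sum.inr l)) / im P (X (Sum.inr j))))

theorem im_eq_zero {P : Ideal (Co a b)} [P.IsPrime] {f : Co a b} : im P f = 0 ↔ f ∈ P := by
  show algebraMap (Co a b ⧸ P) (KK P) (Ideal.Quotient.mk P f) = 0 ↔ f ∈ P
  rw [map_eq_zero_iff _ (IsFractionRing.injective (Co a b ⧸ P) (KK P)),
    Ideal.Quotient.eq_zero_iff_mem]

theorem weight_wt (m : Ix a b →₀ ℕ) : Finsupp.weight (wt a b) m =
    (∑ k, m (Sum.inl k), ∑ l, m (Sum.inr l)) := by
  rw [Finsupp.weight_apply, Finsupp.sum_fintype _ _ (fun i => by simp), Fintype.sum_sum_type]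
  simp only [wt, Sum.elim_inl, Sum.elim_inr]
  ext
  · simp [Prod.fst_sum]
  · simp [Prod.snd_sum]

/-- dehomogenisation of a form -/
theorem toK_form (i : Fin (a + 1)) (j : Fin (b + 1)) (P : Ideal (Co a b)) [P.IsPrime]
    (hi : X (Sum.inl i) ∉ P) (hj : X (Sum.inr j) ∉ P) {u v : ℕ} {F : Co a b}
    (hF : F ∈ bh a b u v) :
    toK i j P F * (im P (X (Sum.inl i)) ^ u * im P (X (Sum.inr j)) ^ v) = im P F := by
  classical
  have hx : im P (X (Sum.inl i)) ≠ 0 := fun h => hi (im_eq_zero.1 h)
  have hy : im P (X (Sum.inr j)) ≠ 0 := fun h => hj (im_eq_zero.1 h)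
  have him : ∀ f : Co a b, im P f = aeval (fun k => im P (X k)) f := by
    intro f
    have : im P = aeval (fun k => im P (X k)) := algHom_ext fun k => by rw [aeval_X]
    exact DFunLike.congr_fun this f
  have hmem : IsWeightedHomogeneous (wt a b) F (u, v) := hF
  rw [him F]
  conv_lhs => rw [F.as_sum]
  conv_rhs => rw [F.as_sum]
  rw [map_sum, map_sum, Finset.sum_mul]
  refine Finset.sum_congr rfl fun m hm => ?_
  have hw := hmem (mem_support_iff.1 hm)
  rw [weight_wt] at hw
  have hw1 : ∑ k, m (Sum.inl k) = u := congrArg Prod.fst hw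
  have hw2 : ∑ l, m (Sum.inr l) = v := congrArg Prod.snd hw
  unfold toK
  rw [aeval_monomial, aeval_monomial, Finsupp.prod_fintype _ _ (fun k => pow_zero _),
    Finsupp.prod_fintype _ _ (fun k => pow_zero _), mul_assoc]
  congr 1
  rw [Fintype.prod_sum_type, Fintype.prod_sum_type, ← hw1, ← hw2,
    ← Finset.prod_pow_eq_pow_sum, ← Finset.prod_pow_eq_pow_sum]
  rw [mul_mul_mul_comm, ← Finset.prod_mul_distrib, ← Finset.prod_mul_distrib]
  congr 1
  · refine Finset.prod_congr rfl fun k _ => ?_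
    rw [Sum.elim_inl, ← mul_pow, div_mul_cancel₀ _ hx]
  · refine Finset.prod_congr rfl fun l _ => ?_
    rw [Sum.elim_inr, ← mul_pow, div_mul_cancel₀ _ hy]

/-- bihomogenisation of a polynomial -/
theorem exists_homog (f : Co a b) :
    ∃ (S : Finset (ℕ × ℕ)) (D : ℕ), (∀ p ∈ S, p.1 ≤ D ∧ p.2 ≤ D) ∧
      f = ∑ p ∈ S, weightedHomogeneousComponent (wt a b) p f := by
  classical
  have hfin : (Function.support fun m => weightedHomogeneousComponent (wt a b) m f).Finite :=
    weightedHomogeneousComponent_finsupp (w := wt a b) (φ := f)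
  refine ⟨hfin.toFinset, hfin.toFinset.sup (fun p => p.1 + p.2), fun p hp => ?_, ?_⟩
  · have : p.1 + p.2 ≤ hfin.toFinset.sup (fun p => p.1 + p.2) :=
      Finset.le_sup (f := fun p : ℕ × ℕ => p.1 + p.2) hp
    omega
  · conv_lhs => rw [← sum_weightedHomogeneousComponent (wt a b) f]
    rw [finsum_eq_sum _ hfin]

theorem pow_mul_pow_sub_mem (i : Fin (a + 1)) (j : Fin (b + 1)) (u v : ℕ) :
    (X (Sum.inl i) : Co a b) ^ u * X (Sum.inr j) ^ v - 1 ∈
      Ideal.span {X (Sum.inl i) - 1, X (Sum.inr j) - 1} := by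
  have h1 : (X (Sum.inl i) : Co a b) ^ u * X (Sum.inr j) ^ v - 1 =
      (X (Sum.inl i) ^ u - 1 ^ u) * X (Sum.inr j) ^ v + (X (Sum.inr j) ^ v - 1 ^ v) := by
    rw [one_pow, one_pow]; ring
  rw [h1]
  refine add_mem (Ideal.mul_mem_right _ _ ?_) ?_
  · obtain ⟨c, hc⟩ := sub_dvd_pow_sub_pow (X (Sum.inl i) : Co a b) 1 u
    rw [hc]
    exact Ideal.mul_mem_right _ _ (Ideal.subset_span (by simp))
  · obtain ⟨c, hc⟩ := sub_dvd_pow_sub_pow (X (Sum.inr j) : Co a b) 1 v
    rw [hc]
    exact Ideal.mul_mem_right _ _ (Ideal.subset_span (by simp))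

theorem toK_eq_zero_iff (i : Fin (a + 1)) (j : Fin (b + 1)) (P : Ideal (Co a b)) [P.IsPrime]
    (hP : BHom P) (hi : X (Sum.inl i) ∉ P) (hj : X (Sum.inr j) ∉ P) (f : Co a b) :
    toK i j P f = 0 ↔ f ∈ chart i j P := by
  classical
  have hx : im P (X (Sum.inl i)) ≠ 0 := fun h => hi (im_eq_zero.1 h)
  have hy : im P (X (Sum.inr j)) ≠ 0 := fun h => hj (im_eq_zero.1 h)
  constructor
  · intro hf
    obtain ⟨S, D, hD, hS⟩ := exists_homog f
    set Fh : Co a b := ∑ p ∈ S, X (Sum.inl i) ^ (D - p.1) * X (Sum.inr j) ^ (D - p.2) *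
      weightedHomogeneousComponent (wt a b) p f with hFh
    have h1 : im P Fh = toK i j P f *
        (im P (X (Sum.inl i)) ^ D * im P (X (Sum.inr j)) ^ D) := by
      rw [hFh, map_sum]
      conv_rhs => rw [hS, map_sum, Finset.sum_mul]
      refine Finset.sum_congr rfl fun p hp => ?_
      have h2 := toK_form i j P hi hj (u := p.1) (v := p.2)
        (F := weightedHomogeneousComponent (wt a b) p f)
        (weightedHomogeneousComponent_isWeightedHomogeneous p f)
      rw [map_mul, map_mul, map_pow, map_pow, ← h2]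
      have e1 : im P (X (Sum.inl i)) ^ D =
          im P (X (Sum.inl i)) ^ (D - p.1) * im P (X (Sum.inl i)) ^ p.1 := by
        rw [← pow_add]; congr 1; have := (hD p hp).1; omega
      have e2 : im P (X (Sum.inr j)) ^ D =
          im P (X (Sum.inr j)) ^ (D - p.2) * im P (X (Sum.inr j)) ^ p.2 := by
        rw [← pow_add]; congr 1; have := (hD p hp).2; omega
      rw [e1, e2]
      ring
    rw [hf, zero_mul, im_eq_zero] at h1
    have h3 : f = Fh - ∑ p ∈ S, (X (Sum.inl i) ^ (D - p.1) * X (Sum.inr j) ^ (D - p.2) - 1) *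
        weightedHomogeneousComponent (wt a b) p f := by
      rw [hFh, ← Finset.sum_sub_distrib]
      conv_lhs => rw [hS]
      refine Finset.sum_congr rfl fun p _ => ?_
      ring
    rw [h3]
    refine sub_mem (Ideal.mem_sup_left h1) (Ideal.mem_sup_right ?_)
    refine Submodule.sum_mem _ fun p _ => Ideal.mul_mem_right _ _ ?_
    exact pow_mul_pow_sub_mem i j _ _
  · intro hf
    have hle : chart i j P ≤ RingHom.ker (toK i j P) := by
      refine sup_le (fun g hg => ?_) ?_
      · show toK i j P g = 0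
        obtain ⟨S, D, hD, hS⟩ := exists_homog g
        rw [hS, map_sum]
        refine Finset.sum_eq_zero fun p _ => ?_
        have h2 := toK_form i j P hi hj (u := p.1) (v := p.2)
          (F := weightedHomogeneousComponent (wt a b) p g)
          (weightedHomogeneousComponent_isWeightedHomogeneous p g)
        rw [im_eq_zero.2 (hP g hg p)] at h2
        exact (mul_eq_zero.1 h2).resolve_right
          (mul_ne_zero (pow_ne_zero _ hx) (pow_ne_zero _ hy))
      · rw [Ideal.span_le]
        rintro g hg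
        rcases hg with rfl | hg
        · show toK i j P (X (Sum.inl i) - 1) = 0
          rw [map_sub, map_one, toK, aeval_X, Sum.elim_inl, div_self hx, sub_self]
        · rw [Set.mem_singleton_iff] at hg
          subst hg
          show toK i j P (X (Sum.inr j) - 1) = 0
          rw [map_sub, map_one, toK, aeval_X, Sum.elim_inr, div_self hy, sub_self]
    exact hle hf

/-- **The ideal of a chart is prime.** -/
theorem chart_prime {P : Ideal (Co a b)} (hp : P.IsPrime) (hP : BHom P) {i : Fin (a + 1)}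
    {j : Fin (b + 1)} (hi : X (Sum.inl i) ∉ P) (hj : X (Sum.inr j) ∉ P) :
    (chart i j P).IsPrime := by
  have h : chart i j P = RingHom.ker (toK i j P) := by
    ext f
    rw [RingHom.mem_ker, toK_eq_zero_iff i j P hP hi hj]
  rw [h]
  exact RingHom.ker_isPrime _

/-- **The model exists.** -/
theorem exists_Mod {P : Ideal (Co a b)} (hp : P.IsPrime) (hP : BHom P) {i : Fin (a + 1)}
    {j : Fin (b + 1)} (hi : X (Sum.inl i) ∉ P) (hj : X (Sum.inr j) ∉ P) :
    ∃ (FF : Type) (_ : Field FF) (_ : Algebra ℂ FF) (π : Co a b →ₐ[ℂ] FF), Mod P i j π := by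
  have hc := chart_prime hp hP hi hj
  refine ⟨FractionRing (Co a b ⧸ chart i j P), inferInstance, inferInstance,
    (IsScalarTower.toAlgHom ℂ (Co a b ⧸ chart i j P)
      (FractionRing (Co a b ⧸ chart i j P))).comp (Ideal.Quotient.mkₐ ℂ (chart i j P)),
    hp, hP, hi, hj, fun f => ?_, fun z => ?_⟩
  · show algebraMap (Co a b ⧸ chart i j P) _ (Ideal.Quotient.mk _ f) = 0 ↔ _
    rw [map_eq_zero_iff _ (IsFractionRing.injective (Co a b ⧸ chart i j P) _),
      Ideal.Quotient.eq_zero_iff_mem]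
  · obtain ⟨f, g, hg, rfl⟩ := IsFractionRing.div_surjective (A := Co a b ⧸ chart i j P) z
    obtain ⟨f, rfl⟩ := Ideal.Quotient.mk_surjective f
    obtain ⟨g, rfl⟩ := Ideal.Quotient.mk_surjective g
    have hg0 : algebraMap (Co a b ⧸ chart i j P) (FractionRing (Co a b ⧸ chart i j P))
        (Ideal.Quotient.mk _ g) ≠ 0 := by
      rw [Ne, map_eq_zero_iff _ (IsFractionRing.injective (Co a b ⧸ chart i j P) _)]
      exact nonZeroDivisors.ne_zero hg
    exact ⟨f, g, hg0, div_mul_cancel₀ _ hg0⟩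

/-- The points of the chart. -/
theorem tuple_iff {n : ℕ} {P : Ideal (Co a b)} {i : Fin (a + 1)} {j : Fin (b + 1)}
    {w : Fin n → Ix a b → ℂ} : Tuple i j P w ↔ ∀ q, ∀ F ∈ chart i j P, eval (w q) F = 0 := by
  constructor
  · intro h q
    obtain ⟨h1, h2, h3⟩ := h q
    have hle : chart i j P ≤ RingHom.ker (eval (w q)) := by
      refine sup_le (fun g hg => h3 g hg) ?_
      rw [Ideal.span_le]
      rintro g hg
      rcases hg with rfl | hg
      · show eval (w q) (X (Sum.inl i) - 1) = 0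
        rw [map_sub, map_one, eval_X, h1, sub_self]
      · rw [Set.mem_singleton_iff] at hg
        subst hg
        show eval (w q) (X (Sum.inr j) - 1) = 0
        rw [map_sub, map_one, eval_X, h2, sub_self]
    exact fun F hF => hle hF
  · intro h q
    refine ⟨?_, ?_, fun F hF => h q F (Ideal.mem_sup_left hF)⟩
    · have := h q (X (Sum.inl i) - 1) (Ideal.mem_sup_right (Ideal.subset_span (by simp)))
      rwa [map_sub, map_one, eval_X, sub_eq_zero] at this
    · have := h q (X (Sum.inr j) - 1) (Ideal.mem_sup_right (Ideal.subset_span (by simp)))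
      rwa [map_sub, map_one, eval_X, sub_eq_zero] at this

end Pool.Agent.TH611.M5
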