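import Pool.Agent.TH611.M5.Chart
import Pool.Agent.TH306.N4.Stmts
import Pool.Agent.TH880.NF.Cnt

/-!
Openness of the separation of jets by a linear system of sections, countable intersections of
open sets of tuples of points, injectivity (statement `S9`).
-/

set_option autoImplicit false

namespace Pool.Agent.TH611.M5

open MvPolynomial Module Pool.Agent.TH279.GR Pool.Agent.TH306.N4

section open_

variable {σ : Type}

/-- Translation of the coordinates. -/
noncomputable def shf (w : σ → ℂ) : MvPolynomial σ ℂ →ₐ[ℂ] MvPolynomial σ ℂ :=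
  aeval (fun j => X j + C (w j))

theorem shf_X (w : σ → ℂ) (j : σ) : shf w (X j) = X j + C (w j) := by
  simp [shf]

theorem shf_C (w : σ → ℂ) (a : ℂ) : shf w (C a) = C a := (shf w).commutes a

theorem shf_shf (w : σ → ℂ) (f : MvPolynomial σ ℂ) : shf (fun j => - w j) (shf w f) = f := by
  have h : (shf (fun j => - w j)).comp (shf w) = AlgHom.id ℂ _ := by
    refine MvPolynomial.algHom_ext fun i => ?_
    rw [AlgHom.comp_apply, shf_X, map_add, shf_X, shf_C, C_neg, AlgHom.id_apply]
    ring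
  exact AlgHom.congr_fun h f

theorem mem_mx_pow_iff {w : σ → ℂ} {m : ℕ} {f : MvPolynomial σ ℂ} :
    f ∈ mx w ^ m ↔ ∀ s : σ →₀ ℕ, Finsupp.degree s < m → coeff s (shf w f) = 0 := by
  rw [← mem_pow_idealOfVars_iff']
  have hI : idealOfVars σ ℂ = Ideal.span (Set.range X) := rfl
  constructor
  · intro h
    have h1 := Ideal.mem_map_of_mem (shf w) h
    rw [Ideal.map_pow] at h1
    refine Ideal.pow_right_mono ?_ m h1
    unfold mx
    rw [Ideal.map_span, Ideal.span_le]
    rintro _ ⟨_, ⟨k, rfl⟩, rfl⟩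
    show shf w (X k - C (w k)) ∈ idealOfVars σ ℂ
    rw [map_sub, shf_X, shf_C, add_sub_cancel_right, hI]
    exact Ideal.subset_span ⟨k, rfl⟩
  · intro h
    have h1 := Ideal.mem_map_of_mem (shf (fun j => - w j)) h
    rw [Ideal.map_pow, shf_shf] at h1
    refine Ideal.pow_right_mono ?_ m h1
    rw [hI, Ideal.map_span, Ideal.span_le]
    rintro _ ⟨_, ⟨k, rfl⟩, rfl⟩
    show shf (fun j => - w j) (X k) ∈ mx w
    rw [shf_X, C_neg, ← sub_eq_add_neg]
    exact Ideal.subset_span ⟨k, rfl⟩

/-- The generic translation. -/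
noncomputable def gshf {n : ℕ} (i : Fin n) :
    MvPolynomial σ ℂ →+* MvPolynomial σ (MvPolynomial (Fin n × σ) ℂ) :=
  eval₂Hom (C.comp C) (fun j => X j + C (X (i, j)))

theorem map_gshf {n : ℕ} (i : Fin n) (w : Fin n → σ → ℂ) (f : MvPolynomial σ ℂ) :
    map (eval (fun q : Fin n × σ => w q.1 q.2)) (gshf i f) = shf (w i) f := by
  have h : (map (eval (fun q : Fin n × σ => w q.1 q.2))).comp (gshf i) =
      (shf (w i) : MvPolynomial σ ℂ →+* MvPolynomial σ ℂ) := by
    refine MvPolynomial.ringHom_ext (fun c => ?_) fun j => ?_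
    · rw [RingHom.comp_apply, gshf, eval₂Hom_C, RingHom.comp_apply, map_C, eval_C,
        RingHom.coe_coe, shf_C]
    · rw [RingHom.comp_apply, gshf, eval₂Hom_X', map_add, map_X, map_C, eval_X,
        RingHom.coe_coe, shf_X]
  exact congrArg (fun φ : MvPolynomial σ ℂ →+* MvPolynomial σ ℂ => φ f) h

variable [Finite σ]

/-- The exponents of degree less than `m`. -/
noncomputable def dgf (σ : Type) [Finite σ] (m : ℕ) : Finset (σ →₀ ℕ) :=
  (Finsupp.finite_of_degree_lt (σ := σ) m).toFinset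

theorem mem_dgf {m : ℕ} {s : σ →₀ ℕ} : s ∈ dgf σ m ↔ Finsupp.degree s < m := by
  unfold dgf
  rw [Set.Finite.mem_toFinset]
  rfl

/-- **Separation of jets by a linear system is an open condition on the points.** -/
theorem SepV.exists_open {n s : ℕ} {J : Ideal (MvPolynomial σ ℂ)}
    {V : Submodule ℂ (MvPolynomial σ ℂ)} {w0 : Fin n → σ → ℂ}
    (h0 : SepV J (fun F => F ∈ V) s w0) :
    ∃ H : MvPolynomial (Fin n × σ) ℂ, eval (fun p => w0 p.1 p.2) H ≠ 0 ∧
      ∀ w : Fin n → σ → ℂ, eval (fun p => w p.1 p.2) H ≠ 0 → SepV J (fun F => F ∈ V) s w := by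
  classical
  let Cn := Fin n × {α : σ →₀ ℕ // α ∈ dgf σ s}
  let f0 : Cn → MvPolynomial σ ℂ := fun j => shf (fun i => - w0 j.1 i) (monomial j.2.1 1)
  have hf0 : ∀ j : Cn, shf (w0 j.1) (f0 j) = monomial j.2.1 1 := by
    intro j
    have h1 := shf_shf (fun i => - w0 j.1 i) (monomial j.2.1 (1 : ℂ))
    simp only [neg_neg] at h1
    exact h1
  have hF : ∀ j : Cn, ∃ F : MvPolynomial σ ℂ, F ∈ V ∧
      ∀ q', ∃ G ∈ J, F - G - (if q' = j.1 then f0 j else 0) ∈ (mx (w0 q')) ^ s := by
    intro j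
    obtain ⟨F, hF, hF1, hF2⟩ := h0 j.1 (f0 j)
    refine ⟨F, hF, fun q' => ?_⟩
    by_cases hq : q' = j.1
    · rw [if_pos hq, hq]
      obtain ⟨G, hG, m, hm, hGm⟩ := Submodule.mem_sup.1 hF1
      refine ⟨G, hG, ?_⟩
      have : F - G - f0 j = m := by
        rw [sub_right_comm, ← hGm]
        ring
      rw [this]
      exact hm
    · rw [if_neg hq]
      obtain ⟨G, hG, m, hm, hGm⟩ := Submodule.mem_sup.1 (hF2 q' hq)
      refine ⟨G, hG, ?_⟩
      have : F - G - 0 = m := by
        rw [← hGm]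
        ring
      rw [this]
      exact hm
  choose F hFh G hG hFG using hF
  let A : Matrix Cn Cn (MvPolynomial (Fin n × σ) ℂ) := fun j' j =>
    coeff j'.2.1 (gshf j'.1 (F j - G j j'.1))
  let ew : (Fin n → σ → ℂ) → MvPolynomial (Fin n × σ) ℂ →+* ℂ :=
    fun w => eval (fun p => w p.1 p.2)
  have hA : ∀ (w : Fin n → σ → ℂ) (j' j : Cn), ew w (A j' j) =
      coeff j'.2.1 (shf (w j'.1) (F j - G j j'.1)) := by
    intro w j' j
    rw [← map_gshf j'.1 w, coeff_map]
  have hdet : ∀ w, ew w A.det = ((ew w).mapMatrix A).det := fun w => RingHom.map_det _ _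
  refine ⟨A.det, ?_, fun w hw => ?_⟩
  · have h1 : (ew w0).mapMatrix A = 1 := by
      ext j' j
      show ew w0 (A j' j) = _
      rw [hA, Matrix.one_apply]
      have h2 := mem_mx_pow_iff.1 (hFG j j'.1) j'.2.1 (mem_dgf.1 j'.2.2)
      rw [map_sub, coeff_sub, sub_eq_zero] at h2
      rw [h2]
      by_cases h3 : j' = j
      · rw [if_pos h3, h3, if_pos rfl, hf0, coeff_monomial, if_pos rfl]
      · rw [if_neg h3]
        by_cases h4 : j'.1 = j.1
        · rw [if_pos h4, h4, hf0, coeff_monomial, if_neg]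
          intro h5
          exact h3 (Prod.ext h4 (Subtype.ext h5.symm))
        · rw [if_neg h4, map_zero, coeff_zero]
    show ew w0 A.det ≠ 0
    rw [hdet, h1, Matrix.det_one]
    exact one_ne_zero
  · have hu : IsUnit ((ew w).mapMatrix A).det := by
      rw [← hdet]
      exact isUnit_iff_ne_zero.2 hw
    intro q f
    let T : Cn → ℂ := fun j' => if j'.1 = q then coeff j'.2.1 (shf (w q) f) else 0
    let c : Cn → ℂ := ((ew w).mapMatrix A)⁻¹.mulVec T
    have hc : ((ew w).mapMatrix A).mulVec c = T := by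
      rw [Matrix.mulVec_mulVec, Matrix.mul_nonsing_inv _ hu, Matrix.one_mulVec]
    have hkey : ∀ q', (∑ j, C (c j) * F j) - (if q' = q then f else 0) ∈
        J ⊔ (mx (w q')) ^ s := by
      intro q'
      have h1 : (∑ j, C (c j) * F j) - (if q' = q then f else 0) =
          (∑ j, C (c j) * G j q') +
            ((∑ j, C (c j) * (F j - G j q')) - (if q' = q then f else 0)) := by
        simp only [mul_sub, Finset.sum_sub_distrib]
        ring
      rw [h1]
      refine Submodule.add_mem_sup (Submodule.sum_mem _ fun j _ =>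
        Ideal.mul_mem_left _ _ (hG j q')) ?_
      rw [mem_mx_pow_iff]
      intro α hα
      have h2 := congrFun hc ⟨q', ⟨α, mem_dgf.2 hα⟩⟩
      simp only [Matrix.mulVec, dotProduct, RingHom.mapMatrix_apply, Matrix.map_apply, hA] at h2
      rw [map_sub, coeff_sub, sub_eq_zero, map_sum, coeff_sum]
      have h3 : ∀ j, coeff α (shf (w q') (C (c j) * (F j - G j q'))) =
          coeff α (shf (w q') (F j - G j q')) * c j := by
        intro j
        rw [map_mul, shf_C, coeff_C_mul, mul_comm]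
      simp only [h3]
      rw [h2]
      simp only [T]
      by_cases hq : q' = q
      · rw [if_pos hq, if_pos hq, hq]
      · rw [if_neg hq, if_neg hq, map_zero, coeff_zero]
    refine ⟨∑ j, C (c j) * F j, ?_, ?_, fun q' hq' => ?_⟩
    · refine Submodule.sum_mem _ fun j _ => ?_
      rw [← MvPolynomial.smul_eq_C_mul]
      exact Submodule.smul_mem _ _ (hFh j)
    · have := hkey q
      rwa [if_pos rfl] at this
    · have := hkey q'
      rwa [if_neg hq', sub_zero] at this

omit [Finite σ] in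
theorem SepV.injective {n s : ℕ} {J : Ideal (MvPolynomial σ ℂ)} {V : MvPolynomial σ ℂ → Prop}
    {w : Fin n → σ → ℂ} (hs : s ≠ 0) (hsep : SepV J V s w)
    (hwJ : ∀ q, ∀ f ∈ J, eval (w q) f = 0) : Function.Injective w := by
  intro q q' hqq
  by_contra hne
  obtain ⟨F, _, hF1, hF2⟩ := hsep q 1
  have hF2 := hF2 q' (Ne.symm hne)
  have hle : ∀ q, J ⊔ (mx (w q)) ^ s ≤ RingHom.ker (eval (w q) : MvPolynomial σ ℂ →+* ℂ) := by
    intro q
    refine sup_le (fun f hf => hwJ q f hf) ?_
    refine (Ideal.pow_le_self hs).trans ?_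
    unfold mx
    rw [Ideal.span_le]
    rintro _ ⟨i, rfl⟩
    show eval (w q) (X i - C (w q i)) = 0
    rw [map_sub, eval_X, eval_C, sub_self]
  have h1 := hle q hF1
  have h2 := hle q' hF2
  rw [← hqq] at h2
  rw [RingHom.mem_ker] at h1 h2
  rw [map_sub, h2, map_one, zero_sub, neg_eq_zero] at h1
  exact one_ne_zero h1

end open_

section cnt

variable {σ ι : Type} [Finite σ] [Countable ι]

theorem exists_point_countable (J : Ideal (MvPolynomial σ ℂ))
    (hJ : J.IsPrime) (g : ι → MvPolynomial σ ℂ) (hg : ∀ k, g k ∉ J) :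
    ∃ z : σ → ℂ, (∀ F ∈ J, eval z F = 0) ∧ ∀ k, eval z (g k) ≠ 0 := by
  let R := MvPolynomial σ ℂ ⧸ J
  have hdom : IsDomain R := Ideal.Quotient.isDomain J
  obtain ⟨s, φ, hinj, hint⟩ := exists_integral_inj_algHom_of_fg ℂ R
  let _ := φ.toRingHom.toAlgebra
  have halg : Algebra.IsIntegral (MvPolynomial (Fin s) ℂ) R := ⟨hint⟩
  have hb : ∀ k, ∃ b : MvPolynomial (Fin s) ℂ, b ≠ 0 ∧
      φ b ∈ Ideal.span {Ideal.Quotient.mk J (g k)} := by
    intro k
    have h0 : Ideal.Quotient.mk J (g k) ≠ 0 := by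
      rw [Ne, Ideal.Quotient.eq_zero_iff_mem]
      exact hg k
    have h1 := Ideal.comap_ne_bot_of_integral_mem (R := MvPolynomial (Fin s) ℂ) h0
      (Ideal.mem_span_singleton_self (Ideal.Quotient.mk J (g k))) (hint _)
    obtain ⟨b, hb, hb0⟩ := Submodule.exists_mem_ne_zero_of_ne_bot h1
    exact ⟨b, hb0, hb⟩
  choose b hb0 hb1 using hb
  obtain ⟨τ, hτ⟩ := Pool.Agent.TH880.NF.exists_eval_ne_zero s b hb0
  have hmax : (vanishingIdeal ℂ {τ} : Ideal (MvPolynomial (Fin s) ℂ)).IsMaximal :=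
    isMaximal_iff_eq_vanishingIdeal_singleton.2 ⟨τ, rfl⟩
  obtain ⟨Q, hQm, hQ⟩ := Ideal.exists_ideal_over_maximal_of_isIntegral (S := R)
    (vanishingIdeal ℂ {τ} : Ideal (MvPolynomial (Fin s) ℂ)) (by
      have : RingHom.ker (algebraMap (MvPolynomial (Fin s) ℂ) R) = ⊥ :=
        (RingHom.injective_iff_ker_eq_bot _).1 hinj
      rw [this]
      exact bot_le)
  have hQ' : (Q.comap (Ideal.Quotient.mk J)).IsMaximal :=
    Ideal.comap_isMaximal_of_surjective _ Ideal.Quotient.mk_surjective
  obtain ⟨z, hz⟩ := isMaximal_iff_eq_vanishingIdeal_singleton.1 hQ'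
  have hmem : ∀ F : MvPolynomial σ ℂ, Ideal.Quotient.mk J F ∈ Q ↔ eval z F = 0 := by
    intro F
    have h1 : F ∈ Q.comap (Ideal.Quotient.mk J) ↔ F ∈ vanishingIdeal ℂ {z} := by rw [hz]
    rw [Ideal.mem_comap, mem_vanishingIdeal_singleton_iff] at h1
    exact h1
  refine ⟨z, fun F hF => ?_, fun k hk => ?_⟩
  · rw [← hmem, Ideal.Quotient.eq_zero_iff_mem.2 hF]
    exact zero_mem _
  · have h1 : Ideal.Quotient.mk J (g k) ∈ Q := (hmem _).2 hk
    have h2 : φ (b k) ∈ Q := (Ideal.span_singleton_le_iff_mem _).2 h1 (hb1 k)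
    have h3 : b k ∈ Q.comap (algebraMap (MvPolynomial (Fin s) ℂ) R) := h2
    rw [hQ, mem_vanishingIdeal_singleton_iff] at h3
    exact hτ k h3

/-- common non-vanishing for tuples of points of an irreducible affine variety -/
theorem exists_tuple_countable {n : ℕ} (J : Ideal (MvPolynomial σ ℂ)) (hJ : J.IsPrime)
    (H : ι → MvPolynomial (Fin n × σ) ℂ)
    (hH : ∀ k, ∃ y0 : Fin n → σ → ℂ, (∀ q, ∀ g ∈ J, eval (y0 q) g = 0) ∧
      eval (fun p => y0 p.1 p.2) (H k) ≠ 0) :
    ∃ y : Fin n → σ → ℂ, (∀ q, ∀ g ∈ J, eval (y q) g = 0) ∧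
      ∀ k, eval (fun p => y p.1 p.2) (H k) ≠ 0 := by
  classical
  obtain ⟨y00, hy00, -⟩ := exists_point_countable (ι := Empty) J hJ
    (fun k => k.elim) (fun k => k.elim)
  have key : ∀ s : Finset (Fin n), ∃ yc : Fin n → σ → ℂ,
      (∀ q, ∀ g ∈ J, eval (yc q) g = 0) ∧
      ∀ k, ∃ y : Fin n → σ → ℂ, (∀ q, ∀ g ∈ J, eval (y q) g = 0) ∧
        eval (fun p => y p.1 p.2) (H k) ≠ 0 ∧ ∀ q ∈ s, y q = yc q := by
    intro s
    induction s using Finset.induction_on with
    | empty =>
      refine ⟨fun _ => y00, fun _ => hy00, fun k => ?_⟩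
      obtain ⟨y, h1, h3⟩ := hH k
      exact ⟨y, h1, h3, by simp⟩
    | insert q s hq ih =>
      obtain ⟨yc, hc1, hk⟩ := ih
      choose y h1 h3 h4 using hk
      set F : ι → MvPolynomial σ ℂ := fun k =>
        aeval (fun p : Fin n × σ =>
          if p.1 = q then (X p.2 : MvPolynomial σ ℂ) else C (y k p.1 p.2)) (H k)
        with hF
      have hev : ∀ k (z : σ → ℂ), eval z (F k) =
          eval (fun p => Function.update (y k) q z p.1 p.2) (H k) := by
        intro k z
        have h5 : ((aeval z : MvPolynomial σ ℂ →ₐ[ℂ] ℂ).comp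
            (aeval (fun p : Fin n × σ =>
              if p.1 = q then (X p.2 : MvPolynomial σ ℂ) else C (y k p.1 p.2)))) =
            (aeval (fun p : Fin n × σ => Function.update (y k) q z p.1 p.2) :
              MvPolynomial (Fin n × σ) ℂ →ₐ[ℂ] ℂ) := by
          refine algHom_ext fun p => ?_
          simp only [AlgHom.comp_apply, aeval_X]
          by_cases hp : p.1 = q
          · rw [if_pos hp, aeval_X, hp, Function.update_self]
          · rw [if_neg hp, Function.update_of_ne hp]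
            exact aeval_C _ _
        exact DFunLike.congr_fun h5 (H k)
      obtain ⟨z, hz1, hz3⟩ := exists_point_countable J hJ F (fun k hk => by
        have h6 := h1 k q _ hk
        rw [hev, Function.update_eq_self] at h6
        exact h3 k h6)
      refine ⟨Function.update yc q z, fun q' => ?_, fun k =>
        ⟨Function.update (y k) q z, fun q' => ?_, ?_, fun q' hq' => ?_⟩⟩
      · by_cases h : q' = q
        · subst h; rwa [Function.update_self]
        · rw [Function.update_of_ne h]; exact hc1 q'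
      · by_cases h : q' = q
        · subst h; rwa [Function.update_self]
        · rw [Function.update_of_ne h]; exact h1 k q'
      · have := hz3 k
        rwa [hev] at this
      · by_cases h : q' = q
        · subst h; rw [Function.update_self, Function.update_self]
        · rw [Function.update_of_ne h, Function.update_of_ne h]
          exact h4 k q' ((Finset.mem_insert.1 hq').resolve_left h)
  obtain ⟨yc, hc1, hk⟩ := key Finset.univ
  refine ⟨yc, hc1, fun k => ?_⟩
  obtain ⟨y, -, h3, h4⟩ := hk k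
  have : y = yc := funext fun q => h4 q (Finset.mem_univ q)
  rwa [this] at h3

end cnt

/-- **S9** -/
theorem s9 : S9 := by
  intro a b P hp hP i j hi hj V n s hs hw
  have hJ := chart_prime hp hP hi hj
  choose w0 hw0 hsep0 using hw
  choose H hH0 hH using fun k => SepV.exists_open (hsep0 k)
  obtain ⟨w, hw1, hw2⟩ := exists_tuple_countable (chart i j P) hJ H
    (fun k => ⟨w0 k, tuple_iff.1 (hw0 k), hH0 k⟩)
  refine ⟨H, ⟨w, tuple_iff.2 hw1, hw2⟩, fun w hw hwH => ⟨?_, fun k => hH k w (hwH k)⟩⟩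
  exact SepV.injective (by have := hs 0; omega) (hH 0 w (hwH 0)) (tuple_iff.1 hw)

end Pool.Agent.TH611.M5
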