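import Pool.Agent.TH611.M5.Chart

/-!
Local lengths along a prime filtration.
-/

set_option autoImplicit false

namespace Pool.Agent.TH611.M5

open MvPolynomial Module Pool.Agent.TH279.GR Pool.Agent.TH306.N4

/-- `dim A/I ≤ dim A/Q + dim A/(I + (x))` if `x Q ⊆ I`. -/
theorem finrank_step {A : Type} [CommRing A] [Algebra ℂ A] {I Q I' : Ideal A} {x : A}
    (hI : FiniteDimensional ℂ (A ⧸ I)) (hQ : FiniteDimensional ℂ (A ⧸ Q))
    (hxQ : ∀ f ∈ Q, x * f ∈ I) (hI' : I' = I ⊔ Ideal.span {x}) :
    finrank ℂ (A ⧸ I) ≤ finrank ℂ (A ⧸ Q) + finrank ℂ (A ⧸ I') := by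
  classical
  have hle : I ≤ I' := by rw [hI']; exact le_sup_left
  -- multiplication by `x`
  let μ : (A ⧸ Q) →ₗ[ℂ] (A ⧸ I) := by
    refine (Submodule.liftQ (Q.restrictScalars ℂ)
      ((Ideal.Quotient.mkₐ ℂ I).toLinearMap.comp (LinearMap.mulLeft ℂ x)) ?_)
    intro f hf
    rw [LinearMap.mem_ker]
    exact Ideal.Quotient.eq_zero_iff_mem.2 (hxQ f hf)
  let π : (A ⧸ I) →ₗ[ℂ] (A ⧸ I') := (Ideal.Quotient.factorₐ ℂ hle).toLinearMap
  have hμ : ∀ f : A, μ (Ideal.Quotient.mk Q f) = Ideal.Quotient.mk I (x * f) := fun f => rfl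
  have hπ : ∀ f : A, π (Ideal.Quotient.mk I f) = Ideal.Quotient.mk I' f := fun f => rfl
  have hπs : Function.Surjective π := by
    intro z
    obtain ⟨f, rfl⟩ := Ideal.Quotient.mk_surjective z
    exact ⟨Ideal.Quotient.mk I f, hπ f⟩
  have hker : LinearMap.ker π ≤ LinearMap.range μ := by
    intro z hz
    obtain ⟨f, rfl⟩ := Ideal.Quotient.mk_surjective z
    rw [LinearMap.mem_ker, hπ, Ideal.Quotient.eq_zero_iff_mem, hI'] at hz
    obtain ⟨g, hg, h, hh, hgh⟩ := Submodule.mem_sup.1 hz
    obtain ⟨c, rfl⟩ := Ideal.mem_span_singleton'.1 hh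
    refine ⟨Ideal.Quotient.mk Q c, ?_⟩
    rw [hμ, Ideal.Quotient.eq, ← hgh]
    have : x * c - (g + c * x) = -g := by ring
    rw [this]
    exact neg_mem hg
  have h1 := LinearMap.finrank_range_add_finrank_ker π
  rw [LinearMap.range_eq_top.2 hπs, finrank_top] at h1
  have h2 : finrank ℂ (LinearMap.ker π) ≤ finrank ℂ (LinearMap.range μ) :=
    Submodule.finrank_mono hker
  have h3 : finrank ℂ (LinearMap.range μ) ≤ finrank ℂ (A ⧸ Q) := LinearMap.finrank_range_le μ
  omega

section

variable {σ : Type}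

theorem sub_eval_mem' (w : σ → ℂ) (f : MvPolynomial σ ℂ) : f - C (eval w f) ∈ mx w := by
  induction f using MvPolynomial.induction_on with
  | C a => simp
  | add p q hp hq =>
    have : p + q - C (eval w (p + q)) = (p - C (eval w p)) + (q - C (eval w q)) := by
      rw [map_add, C_add]; ring
    rw [this]
    exact add_mem hp hq
  | mul_X p i hp =>
    have : p * X i - C (eval w (p * X i)) =
        (p - C (eval w p)) * X i + C (eval w p) * (X i - C (w i)) := by
      rw [map_mul, eval_X, C_mul]; ring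
    rw [this]
    refine add_mem (Ideal.mul_mem_right _ _ hp) (Ideal.mul_mem_left _ _ ?_)
    exact Ideal.subset_span ⟨i, rfl⟩

/-- `ℂ[σ]/(I + m_w^K)` is finite-dimensional. -/
theorem finite_quot [Finite σ] (w : σ → ℂ) (I : Ideal (MvPolynomial σ ℂ)) (K : ℕ) :
    FiniteDimensional ℂ (MvPolynomial σ ℂ ⧸ (I ⊔ mx w ^ K)) := by
  classical
  cases nonempty_fintype σ
  -- the quotient by the power of the maximal ideal
  have key : ∀ K : ℕ, FiniteDimensional ℂ (MvPolynomial σ ℂ ⧸ (mx w ^ K)) := by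
    intro K
    induction K with
    | zero =>
      rw [pow_zero, Ideal.one_eq_top]
      have : Subsingleton (MvPolynomial σ ℂ ⧸ (⊤ : Ideal (MvPolynomial σ ℂ))) :=
        Ideal.Quotient.subsingleton_iff.2 rfl
      infer_instance
    | succ K ih =>
      -- `m^K / m^(K+1)` is spanned by finitely many elements
      have hfg : (mx w ^ K : Ideal (MvPolynomial σ ℂ)).FG := by
        refine Ideal.FG.pow ?_
        exact ⟨Finset.univ.image (fun t => X t - C (w t)), by simp [mx]⟩
      obtain ⟨S, hS⟩ := hfg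
      have hle : (mx w ^ (K + 1) : Ideal (MvPolynomial σ ℂ)) ≤ mx w ^ K :=
        Ideal.pow_le_pow_right (Nat.le_succ K)
      let π : (MvPolynomial σ ℂ ⧸ mx w ^ (K + 1)) →ₗ[ℂ] (MvPolynomial σ ℂ ⧸ mx w ^ K) :=
        (Ideal.Quotient.factorₐ ℂ hle).toLinearMap
      have hπ : ∀ f, π (Ideal.Quotient.mk _ f) = Ideal.Quotient.mk _ f := fun f => rfl
      have hker : LinearMap.ker π ≤ Submodule.span ℂ
          ((fun f => Ideal.Quotient.mk (mx w ^ (K + 1)) f) '' (S : Set (MvPolynomial σ ℂ))) := by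
        intro z hz
        obtain ⟨f, rfl⟩ := Ideal.Quotient.mk_surjective z
        rw [LinearMap.mem_ker, hπ, Ideal.Quotient.eq_zero_iff_mem, ← hS] at hz
        refine Submodule.span_induction (p := fun f _ => Ideal.Quotient.mk (mx w ^ (K + 1)) f ∈
          Submodule.span ℂ ((fun f => Ideal.Quotient.mk (mx w ^ (K + 1)) f) ''
            (S : Set (MvPolynomial σ ℂ)))) ?_ ?_ ?_ ?_ hz
        · intro x hx
          exact Submodule.subset_span ⟨x, hx, rfl⟩
        · rw [map_zero]; exact zero_mem _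
        · intro x y _ _ hx hy
          rw [map_add]; exact add_mem hx hy
        · intro a x hxS hx
          have hxK : x ∈ mx w ^ K := by rw [← hS]; exact hxS
          have h1 : Ideal.Quotient.mk (mx w ^ (K + 1)) (a • x) =
              eval w a • Ideal.Quotient.mk (mx w ^ (K + 1)) x := by
            have h2 : eval w a • Ideal.Quotient.mk (mx w ^ (K + 1)) x =
                Ideal.Quotient.mk (mx w ^ (K + 1)) (C (eval w a) * x) := by
              rw [← MvPolynomial.smul_eq_C_mul]
              rfl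
            rw [h2, smul_eq_mul, Ideal.Quotient.eq, ← sub_mul, pow_succ, mul_comm (mx w ^ K)]
            exact Ideal.mul_mem_mul (sub_eval_mem' w a) hxK
          rw [h1]
          exact Submodule.smul_mem _ _ hx
      have hfk : FiniteDimensional ℂ (LinearMap.ker π) := by
        have : FiniteDimensional ℂ (Submodule.span ℂ
          ((fun f => Ideal.Quotient.mk (mx w ^ (K + 1)) f) '' (S : Set (MvPolynomial σ ℂ)))) :=
          FiniteDimensional.span_of_finite ℂ (Set.Finite.image _ S.finite_toSet)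
        exact Submodule.finiteDimensional_of_le hker
      have hfr : FiniteDimensional ℂ (LinearMap.range π) := inferInstance
      have hq : FiniteDimensional ℂ ((MvPolynomial σ ℂ ⧸ mx w ^ (K + 1)) ⧸ LinearMap.ker π) :=
        LinearEquiv.finiteDimensional π.quotKerEquivRange.symm
      exact Module.Finite.of_submodule_quotient (LinearMap.ker π)
  have hK := key K
  have hle : (mx w ^ K : Ideal (MvPolynomial σ ℂ)) ≤ I ⊔ mx w ^ K := le_sup_right
  exact Module.Finite.of_surjective (Ideal.Quotient.factorₐ ℂ hle).toLinearMap (by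
    intro z
    obtain ⟨f, rfl⟩ := Ideal.Quotient.mk_surjective z
    exact ⟨Ideal.Quotient.mk _ f, rfl⟩)

end

variable {a b : ℕ}

/-- **U5**: local lengths along a prime filtration. -/
theorem u5 (i : Fin (a + 1)) (j : Fin (b + 1)) (w : Ix a b → ℂ) (K : ℕ)
    {N' N : Ideal (Co a b)} {l : List (Ideal (Co a b) × ℕ × ℕ)} (h : Chain N' N l) :
    finrank ℂ (Co a b ⧸ (chart i j N' ⊔ mx w ^ K)) ≤
      (l.map fun q => finrank ℂ (Co a b ⧸ (chart i j q.1 ⊔ mx w ^ K))).sum +
        finrank ℂ (Co a b ⧸ (chart i j N ⊔ mx w ^ K)) := by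
  induction h with
  | nil N hN => simp
  | @cons N' N'' N x c e l hs hc ih =>
    rw [List.map_cons, List.sum_cons, add_assoc]
    refine le_trans (finrank_step (x := x) (I' := chart i j N'' ⊔ mx w ^ K)
      (Q := chart i j (col N' x) ⊔ mx w ^ K) (finite_quot w _ K) (finite_quot w _ K) ?_ ?_)
      (Nat.add_le_add_left ih _)
    · intro f hf
      obtain ⟨g, hg, r, hr, rfl⟩ := Submodule.mem_sup.1 hf
      obtain ⟨g1, hg1, g2, hg2, rfl⟩ := Submodule.mem_sup.1 hg
      rw [mul_add, mul_add]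
      refine Submodule.add_mem_sup (Submodule.add_mem_sup ?_ ?_) ?_
      · exact mem_col.1 hg1
      · exact Ideal.mul_mem_left _ _ hg2
      · exact Ideal.mul_mem_left _ _ hr
    · unfold chart
      rw [hs.eq]
      ac_rfl

end Pool.Agent.TH611.M5
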