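import Pool.Agent.TH611.M5.HS
import Pool.Agent.TH611.M5.U5
import Pool.Agent.TH880.N4.Bi
import Pool.Agent.TH306.N4.StmtsU

/-!
Existence of the Hilbert–Samuel multiplicity of a curve at a smooth point of a surface.
-/

set_option autoImplicit false

namespace Pool.Agent.TH611.M5

open MvPolynomial Module Filter Topology Pool.Agent.TH279.GR Pool.Agent.TH306.N4

section

variable {σ : Type} [Finite σ]

omit [Finite σ] in
theorem mem_mx_iff (w : σ → ℂ) (f : MvPolynomial σ ℂ) : f ∈ mx w ↔ eval w f = 0 := by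
  constructor
  · intro hf
    have : mx w ≤ RingHom.ker (eval w) := by
      unfold mx
      rw [Ideal.span_le]
      rintro _ ⟨i, rfl⟩
      show eval w (X i - C (w i)) = 0
      rw [map_sub, eval_X, eval_C, sub_self]
    exact this hf
  · intro hf
    have := sub_eval_mem' w f
    rwa [hf, C_0, sub_zero] at this

omit [Finite σ] in
theorem one_notMem_mx (w : σ → ℂ) : (1 : MvPolynomial σ ℂ) ∉ mx w := by
  rw [mem_mx_iff, map_one]
  exact one_ne_zero

/-- two parameters at a smooth point -/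
theorem exists_params (J : Ideal (MvPolynomial σ ℂ)) (w : σ → ℂ) (hw : ∀ f ∈ J, eval w f = 0)
    (h1 : finrank ℂ (MvPolynomial σ ℂ ⧸ (J ⊔ mx w ^ 1)) = 1)
    (h2 : finrank ℂ (MvPolynomial σ ℂ ⧸ (J ⊔ mx w ^ 2)) = 3) :
    ∃ u1 u2 : MvPolynomial σ ℂ, u1 ∈ mx w ∧ u2 ∈ mx w ∧
      mx w ≤ J ⊔ Ideal.span {u1, u2} ⊔ mx w ^ 2 := by
  classical
  have hJ : J ≤ mx w := fun f hf => (mem_mx_iff w f).2 (hw f hf)
  have hf1 := finite_quot w J 1
  have hf2 := finite_quot w J 2
  have hle : J ⊔ mx w ^ 2 ≤ J ⊔ mx w ^ 1 :=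
    sup_le_sup_left (Ideal.pow_le_pow_right (by norm_num)) _
  let π : (MvPolynomial σ ℂ ⧸ (J ⊔ mx w ^ 2)) →ₗ[ℂ] (MvPolynomial σ ℂ ⧸ (J ⊔ mx w ^ 1)) :=
    (Ideal.Quotient.factorₐ ℂ hle).toLinearMap
  have hπ : ∀ f, π (Ideal.Quotient.mk _ f) = Ideal.Quotient.mk _ f := fun f => rfl
  have hπs : Function.Surjective π := by
    intro z
    obtain ⟨f, rfl⟩ := Ideal.Quotient.mk_surjective z
    exact ⟨Ideal.Quotient.mk _ f, hπ f⟩
  have e1 := LinearMap.finrank_range_add_finrank_ker π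
  rw [LinearMap.range_eq_top.2 hπs, finrank_top, h1, h2] at e1
  have e2 : finrank ℂ (LinearMap.ker π) = 2 := by omega
  let B := Module.finBasisOfFinrankEq ℂ (LinearMap.ker π) e2
  obtain ⟨g0, hg0⟩ := Ideal.Quotient.mk_surjective (B 0 : MvPolynomial σ ℂ ⧸ (J ⊔ mx w ^ 2))
  obtain ⟨g1, hg1⟩ := Ideal.Quotient.mk_surjective (B 1 : MvPolynomial σ ℂ ⧸ (J ⊔ mx w ^ 2))
  have hker : ∀ f, Ideal.Quotient.mk (J ⊔ mx w ^ 2) f ∈ LinearMap.ker π ↔ f ∈ mx w := by
    intro f
    rw [LinearMap.mem_ker, hπ, Ideal.Quotient.eq_zero_iff_mem, pow_one, sup_eq_right.2 hJ]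
  have m0 : g0 ∈ mx w := by
    rw [← hker, hg0]; exact (B 0).2
  have m1 : g1 ∈ mx w := by
    rw [← hker, hg1]; exact (B 1).2
  refine ⟨g0, g1, m0, m1, fun f hf => ?_⟩
  have h3 := B.sum_repr ⟨Ideal.Quotient.mk _ f, (hker f).2 hf⟩
  rw [Fin.sum_univ_two] at h3
  have h4 := congrArg Subtype.val h3
  set c0 := B.repr ⟨Ideal.Quotient.mk _ f, (hker f).2 hf⟩ 0
  set c1 := B.repr ⟨Ideal.Quotient.mk _ f, (hker f).2 hf⟩ 1
  have h5 : Ideal.Quotient.mk (J ⊔ mx w ^ 2) f =
      Ideal.Quotient.mk (J ⊔ mx w ^ 2) (C c0 * g0 + C c1 * g1) := by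
    have h6 : ((c0 • B 0 + c1 • B 1 : LinearMap.ker π) : MvPolynomial σ ℂ ⧸ (J ⊔ mx w ^ 2)) =
        Ideal.Quotient.mk (J ⊔ mx w ^ 2) (C c0 * g0 + C c1 * g1) := by
      rw [← MvPolynomial.smul_eq_C_mul, ← MvPolynomial.smul_eq_C_mul, map_add]
      have h7 : ∀ (c : ℂ) (g : MvPolynomial σ ℂ), Ideal.Quotient.mk (J ⊔ mx w ^ 2) (c • g) =
          c • Ideal.Quotient.mk (J ⊔ mx w ^ 2) g := fun c g => rfl
      rw [h7, h7, hg0, hg1]
      rfl
    rw [← h6, h4]
  rw [Ideal.Quotient.eq] at h5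
  obtain ⟨g, hg, r, hr, hgr⟩ := Submodule.mem_sup.1 h5
  have h8 : f = (g + (C c0 * g0 + C c1 * g1)) + r := by
    have : f - (C c0 * g0 + C c1 * g1) = g + r := hgr.symm
    linear_combination this
  rw [h8]
  refine Submodule.add_mem_sup (Submodule.add_mem_sup hg ?_) hr
  exact add_mem (Ideal.mul_mem_left _ _ (Ideal.subset_span (by simp)))
    (Ideal.mul_mem_left _ _ (Ideal.subset_span (by simp)))

/-- the order of a non-zero element is finite -/
theorem exists_order (J : Ideal (MvPolynomial σ ℂ)) (hJp : J.IsPrime) (w : σ → ℂ)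
    (hw : ∀ f ∈ J, eval w f = 0) {F : MvPolynomial σ ℂ} (hF : F ∉ J) :
    ∃ k : ℕ, F ∈ J ⊔ mx w ^ k ∧ F ∉ J ⊔ mx w ^ (k + 1) := by
  classical
  have hJ : J ≤ mx w := fun f hf => (mem_mx_iff w f).2 (hw f hf)
  have hex : ∃ K : ℕ, F ∉ J ⊔ mx w ^ K := by
    by_contra hcon
    push Not at hcon
    have hdom : IsDomain (MvPolynomial σ ℂ ⧸ J) := Ideal.Quotient.isDomain J
    let I := (mx w).map (Ideal.Quotient.mk J)
    have hI : I ≠ ⊤ := by
      intro h
      have h1 : (1 : MvPolynomial σ ℂ ⧸ J) ∈ I := by rw [h]; trivial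
      have h2 : Ideal.Quotient.mk J 1 ∈ I := by rwa [map_one]
      have h3 : (1 : MvPolynomial σ ℂ) ∈ (I.comap (Ideal.Quotient.mk J)) := h2
      rw [Ideal.comap_map_of_surjective' _ Ideal.Quotient.mk_surjective, Ideal.mk_ker,
        sup_eq_left.2 hJ] at h3
      exact one_notMem_mx w h3
    have hkr := Ideal.iInf_pow_eq_bot_of_isDomain I hI
    have hmem : Ideal.Quotient.mk J F ∈ ⨅ K, I ^ K := by
      rw [Submodule.mem_iInf]
      intro K
      obtain ⟨g, hg, r, hr, rfl⟩ := Submodule.mem_sup.1 (hcon K)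
      rw [map_add, Ideal.Quotient.eq_zero_iff_mem.2 hg, zero_add]
      show _ ∈ ((mx w).map (Ideal.Quotient.mk J)) ^ K
      rw [← Ideal.map_pow]
      exact Ideal.mem_map_of_mem _ hr
    rw [hkr, Ideal.mem_bot, Ideal.Quotient.eq_zero_iff_mem] at hmem
    exact hF hmem
  have hs := Nat.find_spec hex
  have hmin : ∀ m, m < Nat.find hex → ¬ (F ∉ J ⊔ mx w ^ m) := fun m => Nat.find_min hex
  have h0 : Nat.find hex ≠ 0 := by
    intro h
    rw [h, pow_zero, Ideal.one_eq_top, sup_top_eq] at hs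
    exact hs trivial
  refine ⟨Nat.find hex - 1, ?_, ?_⟩
  · have := hmin (Nat.find hex - 1) (by omega)
    rwa [not_not] at this
  · rwa [Nat.sub_add_cancel (by omega)]

/-- **Existence of the multiplicity at a smooth point**, affine form. -/
theorem exists_mult_affine (J JQ : Ideal (MvPolynomial σ ℂ)) (hJp : J.IsPrime) (w : σ → ℂ)
    (hw : ∀ f ∈ J, eval w f = 0)
    (h1 : finrank ℂ (MvPolynomial σ ℂ ⧸ (J ⊔ mx w ^ 1)) = 1)
    (h2 : finrank ℂ (MvPolynomial σ ℂ ⧸ (J ⊔ mx w ^ 2)) = 3) (hle : J ≤ JQ)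
    {F : MvPolynomial σ ℂ} (hF : F ∈ JQ) (hFJ : F ∉ J) :
    ∃ K1 μ c : ℕ, ∀ K, K1 ≤ K →
      finrank ℂ (MvPolynomial σ ℂ ⧸ (JQ ⊔ mx w ^ K)) = μ * (K - K1) + c := by
  obtain ⟨u1, u2, hu1, hu2, hm⟩ := exists_params J w hw h1 h2
  have htop : ∀ f : MvPolynomial σ ℂ, ∃ c : ℂ, f - algebraMap ℂ (MvPolynomial σ ℂ) c ∈ mx w :=
    fun f => ⟨eval w f, sub_eval_mem' w f⟩
  have hmQ : mx w ≤ JQ ⊔ Ideal.span {u1, u2} ⊔ mx w ^ 2 :=
    hm.trans (sup_le_sup_right (sup_le_sup_right hle _) _)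
  obtain ⟨k, hk1, hk2⟩ := exists_order J hJp w hw hFJ
  refine exists_mult hu1 hu2 htop hmQ (k := k) ?_
  obtain ⟨g, hg, h, hh, hgh⟩ := Submodule.mem_sup.1 hk1
  have h3 := pow_le_DD J (mx w) u1 u2 hu1 hu2 htop hm k
    (show h ∈ (mx w ^ k).restrictScalars ℂ from hh)
  obtain ⟨e, he, r, hr, her⟩ := Submodule.mem_sup.1 h3
  obtain ⟨d, hd, κ, hκ, hdκ⟩ := Submodule.mem_sup.1 he
  obtain ⟨q, hq, hqd⟩ := DD_le_frm u1 u2 k hd
  have hκ : κ ∈ J := hκ
  have hr : r ∈ mx w ^ (k + 1) := hr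
  have hFe : F = g + (d + κ + r) := by rw [← hgh, ← her, ← hdκ]
  intro hbot
  have hqW : q ∈ WW JQ (mx w) u1 u2 k := by
    refine mem_WW.2 ⟨hq, ?_⟩
    have h4 : frm u1 u2 k q = (F - g - κ) + (- r) := by
      rw [hqd, hFe]; ring
    rw [h4]
    exact Submodule.add_mem_sup (sub_mem (sub_mem hF (hle hg)) (hle hκ)) (neg_mem hr)
  rw [hbot, Submodule.mem_bot] at hqW
  apply hk2
  rw [hqW, map_zero] at hqd
  have h5 : F = (g + κ) + r := by
    rw [hFe, ← hqd]; ring
  rw [h5]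
  exact Submodule.add_mem_sup (add_mem hg hκ) hr

end

theorem tendsto_of_eventually (f : ℕ → ℕ) {K1 μ c : ℕ} (h : ∀ K, K1 ≤ K → f K = μ * (K - K1) + c) :
    Tendsto (fun K : ℕ => (f K : ℝ) / K) atTop (𝓝 (μ : ℝ)) := by
  have h1 : Tendsto (fun K : ℕ => (μ : ℝ) + ((c : ℝ) - μ * K1) * (1 / (K : ℝ))) atTop
      (𝓝 ((μ : ℝ) + ((c : ℝ) - μ * K1) * 0)) :=
    tendsto_const_nhds.add (tendsto_const_nhds.mul tendsto_one_div_atTop_nhds_zero_nat)
  rw [mul_zero, add_zero] at h1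
  refine h1.congr' ?_
  filter_upwards [eventually_ge_atTop (K1 + 1)] with K hK
  have hK0 : (K : ℝ) ≠ 0 := by
    have : 0 < K := by omega
    exact_mod_cast this.ne'
  rw [h K (by omega)]
  push_cast [Nat.cast_sub (show K1 ≤ K by omega)]
  field_simp
  ring

theorem tendsto_zero_of_le (f : ℕ → ℕ) {c : ℕ} (h : ∀ K, f K ≤ c) :
    Tendsto (fun K : ℕ => (f K : ℝ) / K) atTop (𝓝 0) := by
  have h1 : Tendsto (fun K : ℕ => (c : ℝ) * (1 / (K : ℝ))) atTop (𝓝 ((c : ℝ) * 0)) :=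
    tendsto_const_nhds.mul tendsto_one_div_atTop_nhds_zero_nat
  rw [mul_zero] at h1
  refine squeeze_zero (fun K => by positivity) (fun K => ?_) h1
  rw [mul_one_div]
  exact div_le_div_of_nonneg_right (by exact_mod_cast h K) (Nat.cast_nonneg K)

variable {a b : ℕ}

/-- **U6** -/
theorem u6 : U6 := by
  intro a b P α β γ hS i j w hw hsm Q hQp hQh hPQ
  have hPp := hS.prime
  have hPh := hS.hom
  have hwi : w (Sum.inl i) = 1 ∧ w (Sum.inr j) = 1 := by
    constructor
    · have := hw (X (Sum.inl i) - 1) (Ideal.mem_sup_right (Ideal.subset_span (by simp)))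
      rwa [map_sub, map_one, eval_X, sub_eq_zero] at this
    · have := hw (X (Sum.inr j) - 1) (Ideal.mem_sup_right (Ideal.subset_span (by simp)))
      rwa [map_sub, map_one, eval_X, sub_eq_zero] at this
  have hwP : ∀ f ∈ P, eval w f = 0 := fun f hf => hw f (Ideal.mem_sup_left hf)
  have hiP : X (Sum.inl i) ∉ P := fun h => by
    have := hwP _ h
    rw [eval_X, hwi.1] at this
    exact one_ne_zero this
  have hjP : X (Sum.inr j) ∉ P := fun h => by
    have := hwP _ h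
    rw [eval_X, hwi.2] at this
    exact one_ne_zero this
  have hJp := chart_prime hPp hPh hiP hjP
  have hle : chart i j P ≤ chart i j Q := sup_le_sup_right hPQ.le _
  -- the case that `w` is not on `Q`
  by_cases hwQ : ∀ f ∈ Q, eval w f = 0
  · -- `w` is on `Q`
    have hwcQ : ∀ f ∈ chart i j Q, eval w f = 0 := by
      have hl : chart i j Q ≤ RingHom.ker (eval w) := by
        refine sup_le (fun f hf => hwQ f hf) ?_
        rw [Ideal.span_le]
        rintro f hf
        exact hw f (Ideal.mem_sup_right (Ideal.subset_span hf))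
      exact fun f hf => hl hf
    obtain ⟨F, hF, hFP⟩ := Set.exists_of_ssubset (show (P : Set (Co a b)) ⊂ Q from hPQ)
    -- a bihomogeneous component
    obtain ⟨p, hp⟩ : ∃ p : ℕ × ℕ, weightedHomogeneousComponent (wt a b) p F ∉ P := by
      by_contra hcon
      push Not at hcon
      obtain ⟨S, D, -, hSF⟩ := exists_homog F
      apply hFP
      rw [SetLike.mem_coe, hSF]
      exact Submodule.sum_mem _ fun p _ => hcon p
    have hpJ : weightedHomogeneousComponent (wt a b) p F ∉ chart i j P := by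
      intro h
      exact hp (Pool.Agent.TH880.N4.mem_of_mem_chart P hPp hPh hiP hjP (u := p.1) (v := p.2)
        (weightedHomogeneousComponent_isWeightedHomogeneous p F) h)
    have hpQ : weightedHomogeneousComponent (wt a b) p F ∈ chart i j Q :=
      Ideal.mem_sup_left (hQh F hF p)
    obtain ⟨K1, μ, c, hK⟩ := exists_mult_affine (chart i j P) (chart i j Q) hJp w hw
      (by have := hsm 1; simpa using this) (by have := hsm 2; simpa using this) hle hpQ hpJ
    have hlim := tendsto_of_eventually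
      (fun K => finrank ℂ (Co a b ⧸ (chart i j Q ⊔ mx w ^ K))) hK
    refine ⟨⟨μ, Nat.cast_nonneg μ, hlim⟩, ?_⟩
    rintro (hrel | ⟨c0, n0, hlin⟩)
    · exfalso
      apply hrel
      intro u v hle
      have h1 : (X (Sum.inl i) : Co a b) ^ u * X (Sum.inr j) ^ v ∈ bh a b u v := by
        have h2 := Pool.Agent.TH880.N4.bh_mul
          (Pool.Agent.TH880.N4.pow_mem_bh (Pool.Agent.TH880.N4.X0_mem (a := a) (b := b) i) u)
          (Pool.Agent.TH880.N4.pow_mem_bh (Pool.Agent.TH880.N4.Y0_mem (a := a) (b := b) j) v)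
        simpa using h2
      have h3 := hwQ _ (hle h1)
      rw [map_mul, map_pow, map_pow, eval_X, eval_X, hwi.1, hwi.2, one_pow, one_pow,
        one_mul] at h3
      exact one_ne_zero h3
    · -- bounded lengths
      refine tendsto_zero_of_le
        (fun K => finrank ℂ (Co a b ⧸ (chart i j Q ⊔ mx w ^ K))) (c := c0.toNat) fun K => ?_
      have hfin := finite_quot w (chart i j Q) K
      -- generators of the quotient
      obtain ⟨S, hS⟩ := Module.Finite.fg_top
        (R := ℂ) (M := Co a b ⧸ (chart i j Q ⊔ mx w ^ K))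
      have hlift : ∀ z : Co a b ⧸ (chart i j Q ⊔ mx w ^ K), ∃ T : ℕ, ∀ D ≥ T,
          ∃ G ∈ bh a b D D, Ideal.Quotient.mk (chart i j Q ⊔ mx w ^ K) G = z := by
        intro z
        obtain ⟨f, rfl⟩ := Ideal.Quotient.mk_surjective z
        obtain ⟨T, hT⟩ := Pool.Agent.TH880.N4.hz i j f
        refine ⟨T, fun D hD => ?_⟩
        obtain ⟨G, hG, hGf⟩ := hT D hD D hD
        refine ⟨G, hG, ?_⟩
        rw [Ideal.Quotient.eq]
        exact Ideal.mem_sup_left (Ideal.mem_sup_right hGf)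
      choose T hT using hlift
      set D := max n0 (S.sup T) with hD
      have htop : (⊤ : Submodule ℂ (Co a b ⧸ (chart i j Q ⊔ mx w ^ K))) ≤
          (bh a b D D).map (Ideal.Quotient.mkₐ ℂ (chart i j Q ⊔ mx w ^ K)).toLinearMap := by
        rw [← hS, Submodule.span_le]
        intro z hz
        obtain ⟨G, hG, hGz⟩ := hT z D (by
          have : T z ≤ S.sup T := Finset.le_sup hz
          omega)
        exact ⟨G, hG, hGz⟩
      have hQle : Q ≤ chart i j Q ⊔ mx w ^ K := le_sup_of_le_left le_sup_left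
      have hmap : (bh a b D D).map (Ideal.Quotient.mkₐ ℂ (chart i j Q ⊔ mx w ^ K)).toLinearMap =
          ((bh a b D D).map (Ideal.Quotient.mkₐ ℂ Q).toLinearMap).map
            (Ideal.Quotient.factorₐ ℂ hQle).toLinearMap := by
        rw [← Submodule.map_comp]
        rfl
      have hfb := Pool.Agent.TH880.N4.finite_bh (a := a) (b := b) D D
      have hfm : Module.Finite ℂ ((bh a b D D).map (Ideal.Quotient.mkₐ ℂ Q).toLinearMap) :=
        Module.Finite.map _ _
      have h4 : finrank ℂ (Co a b ⧸ (chart i j Q ⊔ mx w ^ K)) ≤ hf Q D D := by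
        rw [← finrank_top ℂ (Co a b ⧸ (chart i j Q ⊔ mx w ^ K))]
        refine (Submodule.finrank_mono htop).trans ?_
        rw [hmap]
        exact Submodule.finrank_map_le _ _
      have h5 := hlin D D (le_max_left _ _) (le_max_left _ _)
      omega
  · -- `w` is not on `Q`
    push Not at hwQ
    obtain ⟨f, hf, hf0⟩ := hwQ
    have htop : ∀ K, chart i j Q ⊔ mx w ^ K = ⊤ := by
      intro K
      refine Ideal.sup_pow_eq_top ?_
      rw [Ideal.eq_top_iff_one]
      have h1 : (1 : Co a b) = C (eval w f)⁻¹ * f + (1 - C (eval w f)⁻¹ * f) := by ring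
      rw [h1]
      refine Submodule.add_mem_sup (Ideal.mul_mem_left _ _ (Ideal.mem_sup_left hf)) ?_
      rw [mem_mx_iff, map_sub, map_one, map_mul, eval_C, inv_mul_cancel₀ hf0, sub_self]
    have hlim : IsMult i j Q w 0 := by
      refine tendsto_zero_of_le
        (fun K => finrank ℂ (Co a b ⧸ (chart i j Q ⊔ mx w ^ K))) (c := 0) fun K => ?_
      show finrank ℂ (Co a b ⧸ (chart i j Q ⊔ mx w ^ K)) ≤ 0
      rw [htop K]
      have : Subsingleton (Co a b ⧸ (⊤ : Ideal (Co a b))) := Ideal.Quotient.subsingleton_iff.2 rfl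
      rw [finrank_zero_of_subsingleton]
    exact ⟨⟨0, le_refl _, hlim⟩, fun _ => hlim⟩

end Pool.Agent.TH611.M5
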