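import Pool.Agent.TH611.M5.V2
import Pool.Agent.TH611.M5.Chart

/-!
The upper bound in the case `L² = 0`.
-/

set_option autoImplicit false

namespace Pool.Agent.TH611.M5

open MvPolynomial Module Filter Topology Pool.Agent.TH279.GR Pool.Agent.TH306.N4

/-- a non-zero section of `m A - p B` has `L · (m A - p B) ≥ 0` -/
def SecNonneg : Prop :=
  ∀ (a b : ℕ) (P : Ideal (Co a b)) (α β γ : ℕ), Surf P α β γ → Nef P →
    ∀ (i : Fin (a + 1)) (j : Fin (b + 1)) (FF : Type) [Field FF] [Algebra ℂ FF]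
    (π : Co a b →ₐ[ℂ] FF), Mod P i j π → ∀ (m p : ℕ) (ψ : FF), Sec2 π m p ψ → ψ ≠ 0 →
    0 ≤ (m : ℝ) * ((α : ℝ) - β) - p * ((β : ℝ) - γ)

theorem sec_one {a b : ℕ} {FF : Type} [Field FF] [Algebra ℂ FF] {P : Ideal (Co a b)}
    {i : Fin (a + 1)} {j : Fin (b + 1)} {π : Co a b →ₐ[ℂ] FF} (hM : Mod P i j π) :
    Sec2 π 1 0 1 := by
  refine ⟨0, fun f hf => ?_⟩
  rw [one_mul]
  have h1 := Submodule.mul_mem_mul (Pool.Agent.TH880.N4.one_mem_TT hM 1 0) hf
  rw [one_mul, ← Pool.Agent.TH880.N4.TT_add] at h1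
  have e : (1 + 0 : ℕ) = 0 + 1 := rfl
  simpa [e] using h1

/-- **The upper bound if `L² = 0`.** -/
theorem up0 (hUG : UpperG) (hV7 : V7) (hsec : SecNonneg) :
    ∀ (a b : ℕ) (P : Ideal (Co a b)) (α β γ : ℕ), Surf P α β γ → Nef P → 2 * β = α + γ →
    ∀ (i : Fin (a + 1)) (j : Fin (b + 1)), X (Sum.inl i) ∉ P → X (Sum.inr j) ∉ P →
    ∀ n : ℕ, 1 ≤ n →
    ∀ w : Fin n → Ix a b → ℂ, Tuple i j P w → (∀ q, SmoothAt P i j (w q)) →
      ∀ ε : ℝ, 0 < ε → ∃ (Q : Ideal (Co a b)) (dA dB : ℝ) (μ : Fin n → ℝ), P ≤ Q ∧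
        Curv Q dA dB ∧ (∀ q, IsMult i j Q (w q) (μ q)) ∧ 0 < ∑ q, μ q ∧
        dA - dB ≤ ε * ∑ q, μ q := by
  intro a b P α β γ hS hN hsq i j hi hj n hn w hw hsm ε hε
  obtain ⟨FF, _, _, π, hM⟩ := exists_Mod hS.prime hS.hom hi hj
  have hαβ : (0 : ℝ) ≤ (α : ℝ) - β := by
    have := hsec a b P α β γ hS hN i j FF π hM 1 0 1 (sec_one hM) one_ne_zero
    simpa using this
  have hαβ' : β ≤ α := by
    have : (β : ℝ) ≤ α := by linarith
    exact_mod_cast this
  obtain ⟨δ, hδ⟩ := Nat.exists_eq_add_of_le hαβ'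
  have hγ : β = γ + δ := by omega
  have hposn : 0 < α + 2 * β + γ := by
    have := hS.pos
    exact_mod_cast this
  obtain ⟨hfin, hgrow⟩ := hV7 a b P α β γ hS hN i j FF π hM
  -- the integer `r`
  obtain ⟨r0, hr0⟩ := exists_nat_ge ((δ : ℝ) / ε)
  set r : ℕ := r0 + 1 with hr
  have hrδ : (δ : ℝ) ≤ ε * r := by
    rw [div_le_iff₀ hε] at hr0
    have : (r : ℝ) = r0 + 1 := by rw [hr]; push_cast; ring
    rw [this]
    nlinarith
  set N : ℕ := n * r ^ 2 + 2 with hNdef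
  obtain ⟨m₀, hm₀⟩ := hgrow (1 / (N : ℝ) ^ 2) (by positivity)
  -- the integer `t`
  set t : ℕ := m₀ + 1 with ht
  have hN1 : 1 ≤ N := by omega
  have hmt : m₀ ≤ N * t := by
    have : t ≤ N * t := Nat.le_mul_of_pos_left t hN1
    omega
  have hr1 : 1 ≤ r := by omega
  have ht1 : 1 ≤ t := by omega
  -- choose the section
  have key : ∃ p : ℕ, p ≤ N * t ∧ n * ((r * t) * ((r * t) + 1) / 2) < finrank ℂ (SecM2 π (N * t) p) ∧
      ((N * t : ℕ) : ℝ) * ((α : ℝ) - β) - p * ((β : ℝ) - γ) ≤ t * δ := by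
    have hs2 : n * ((r * t) * ((r * t) + 1) / 2) ≤ n * r ^ 2 * t ^ 2 := by
      have h1 : (r * t) * ((r * t) + 1) / 2 ≤ (r * t) ^ 2 := by
        have h2 : 1 ≤ r * t := Nat.mul_pos hr1 ht1
        have h3 : (r * t) * ((r * t) + 1) ≤ 2 * (r * t) ^ 2 := by nlinarith
        omega
      calc n * ((r * t) * ((r * t) + 1) / 2) ≤ n * (r * t) ^ 2 := Nat.mul_le_mul_left n h1
        _ = n * r ^ 2 * t ^ 2 := by ring
    have hNr : (N : ℝ) = n * r ^ 2 + 2 := by rw [hNdef]; push_cast; ring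
    have hNpos : (0 : ℝ) < N := by positivity
    have htpos : (0 : ℝ) < t := by exact_mod_cast ht1
    rcases Nat.eq_zero_or_pos δ with h0 | h0
    · -- `α = β = γ`
      have hαβ2 : α = β := by omega
      have hβγ : β = γ := by omega
      have hβ1 : 1 ≤ β := by omega
      refine ⟨0, Nat.zero_le _, ?_, ?_⟩
      · have h1 := hm₀ (N * t) hmt 0 (Nat.zero_le _)
        have h2 : (t : ℝ) ^ 2 * (N ^ 2 - 1) ≤ 2 * finrank ℂ (SecM2 π (N * t) 0) := by
          refine le_trans ?_ h1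
          have hβ' : (1 : ℝ) ≤ α := by rw [hαβ2]; exact_mod_cast hβ1
          push_cast
          have e1 : 1 / (N : ℝ) ^ 2 * ((N : ℝ) * t) ^ 2 = t ^ 2 := by field_simp
          rw [e1]
          nlinarith [mul_le_mul_of_nonneg_right hβ' (sq_nonneg ((N : ℝ) * t))]
        have h3 : ((n * r ^ 2 * t ^ 2 : ℕ) : ℝ) < (finrank ℂ (SecM2 π (N * t) 0) : ℝ) := by
          push_cast
          have hn0 : (0 : ℝ) ≤ n * r ^ 2 := by positivity
          have h4 : 2 * ((n : ℝ) * r ^ 2) < (N : ℝ) ^ 2 - 1 := by rw [hNr]; nlinarith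
          have h5 : (t : ℝ) ^ 2 * (2 * ((n : ℝ) * r ^ 2)) < (t : ℝ) ^ 2 * (N ^ 2 - 1) :=
            mul_lt_mul_of_pos_left h4 (by positivity)
          nlinarith
        exact lt_of_le_of_lt hs2 (by exact_mod_cast h3)
      · rw [hαβ2]
        simp only [sub_self, mul_zero, Nat.cast_zero, zero_mul]
        positivity
    · -- `δ ≥ 1`
      refine ⟨N * t - t, Nat.sub_le _ _, ?_, ?_⟩
      · have h1 := hm₀ (N * t) hmt (N * t - t) (Nat.sub_le _ _)
        have hle : t ≤ N * t := Nat.le_mul_of_pos_left t hN1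
        have h2 : (t : ℝ) ^ 2 * (2 * N - 2) ≤ 2 * finrank ℂ (SecM2 π (N * t) (N * t - t)) := by
          refine le_trans ?_ h1
          rw [Nat.cast_sub hle]
          push_cast
          have hα' : (α : ℝ) = γ + 2 * δ := by
            have : α = γ + 2 * δ := by omega
            rw [this]; push_cast; ring
          have hβ' : (β : ℝ) = γ + δ := by
            rw [hγ]; push_cast; ring
          have hδ1 : (1 : ℝ) ≤ δ := by exact_mod_cast h0
          have hγ0 : (0 : ℝ) ≤ γ := Nat.cast_nonneg γ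
          rw [hα', hβ']
          have e1 : 1 / (N : ℝ) ^ 2 * ((N : ℝ) * t) ^ 2 = t ^ 2 := by field_simp
          rw [e1]
          have e2 : ((γ : ℝ) + 2 * δ) * ((N : ℝ) * t) ^ 2 -
              2 * (γ + δ) * ((N : ℝ) * t) * ((N : ℝ) * t - t) + γ * ((N : ℝ) * t - t) ^ 2 - t ^ 2 =
              t ^ 2 * (γ + 2 * δ * N - 1) := by ring
          rw [e2]
          refine mul_le_mul_of_nonneg_left ?_ (sq_nonneg _)
          have hN1' : (1 : ℝ) ≤ N := by exact_mod_cast hN1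
          nlinarith [mul_le_mul_of_nonneg_right hδ1 hNpos.le]
        have h3 : ((n * r ^ 2 * t ^ 2 : ℕ) : ℝ) <
            (finrank ℂ (SecM2 π (N * t) (N * t - t)) : ℝ) := by
          push_cast
          rw [hNr] at h2
          nlinarith [sq_pos_of_pos htpos]
        exact lt_of_le_of_lt hs2 (by exact_mod_cast h3)
      · have hle : t ≤ N * t := Nat.le_mul_of_pos_left t hN1
        rw [Nat.cast_sub hle]
        have hα' : (α : ℝ) = γ + 2 * δ := by
          have : α = γ + 2 * δ := by omega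
          rw [this]; push_cast; ring
        have hβ' : (β : ℝ) = γ + δ := by
          rw [hγ]; push_cast; ring
        rw [hα', hβ']
        push_cast
        have : (N : ℝ) * t * (γ + 2 * δ - (γ + δ)) - (N * t - t) * (γ + δ - γ) = t * δ := by ring
        rw [this]
  obtain ⟨p, -, hp1, hp2⟩ := key
  obtain ⟨Q, dA, dB, μ, hPQ, hC, hmu, hpos, hineq⟩ := hUG a b P α β γ hS hN i j FF π hM n hn w hw
    hsm (N * t) p (r * t) (Nat.mul_pos hr1 ht1) hp1
  refine ⟨Q, dA, dB, μ, hPQ, hC, hmu, hpos, ?_⟩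
  have htpos : (0 : ℝ) < t := by exact_mod_cast ht1
  have hrpos : (0 : ℝ) < r := by exact_mod_cast hr1
  have hn1 : (1 : ℝ) ≤ n := by exact_mod_cast hn
  have h1 : (dA - dB) * (n * ((r * t : ℕ) : ℝ)) ≤ (t * δ) * ∑ q, μ q :=
    hineq.trans (mul_le_mul_of_nonneg_right hp2 hpos.le)
  have h2 : (t * δ) * ∑ q, μ q ≤ (ε * ∑ q, μ q) * (n * ((r * t : ℕ) : ℝ)) := by
    push_cast
    have h3 : (δ : ℝ) ≤ ε * (n * r) := by
      have : ε * r ≤ ε * (n * r) := by
        refine mul_le_mul_of_nonneg_left ?_ hε.le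
        nlinarith
      linarith
    have h4 := mul_le_mul_of_nonneg_left h3 (mul_nonneg htpos.le hpos.le)
    nlinarith
  have h5 : (0 : ℝ) < n * ((r * t : ℕ) : ℝ) := by
    push_cast
    positivity
  exact le_of_mul_le_mul_right (h1.trans h2) h5

end Pool.Agent.TH611.M5
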