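import Pool.Agent.TH611.M5.Loc

/-!
Existence of the Hilbert–Samuel multiplicity of a curve on a smooth surface: the local algebra.
-/

set_option autoImplicit false

namespace Pool.Agent.TH611.M5

open Module Polynomial

variable {A : Type} [CommRing A] [Algebra ℂ A]

/-- the form `∑ p_a u1^a u2^(K-a)` of degree `K` -/
noncomputable def frm (u1 u2 : A) (K : ℕ) : ℂ[X] →ₗ[ℂ] A :=
  ∑ a ∈ Finset.range (K + 1), (Polynomial.lcoeff ℂ a).smulRight (u1 ^ a * u2 ^ (K - a))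

theorem frm_apply (u1 u2 : A) (K : ℕ) (p : ℂ[X]) :
    frm u1 u2 K p = ∑ a ∈ Finset.range (K + 1), p.coeff a • (u1 ^ a * u2 ^ (K - a)) := by
  simp [frm, LinearMap.sum_apply]

theorem frm_mem {m : Ideal A} {u1 u2 : A} (h1 : u1 ∈ m) (h2 : u2 ∈ m) (K : ℕ) (p : ℂ[X]) :
    frm u1 u2 K p ∈ m ^ K := by
  rw [frm_apply]
  refine Submodule.sum_mem _ fun a ha => ?_
  have ha' : a + (K - a) = K := by
    have := Finset.mem_range.1 ha; omega
  rw [Algebra.smul_def]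
  refine Ideal.mul_mem_left _ _ ?_
  have h3 : u1 ^ a * u2 ^ (K - a) ∈ m ^ (a + (K - a)) := by
    rw [pow_add m]
    exact Ideal.mul_mem_mul (Ideal.pow_mem_pow h1 _) (Ideal.pow_mem_pow h2 _)
  rwa [ha'] at h3

theorem frm_X (u1 u2 : A) (K : ℕ) (p : ℂ[X]) :
    frm u1 u2 (K + 1) (X * p) = u1 * frm u1 u2 K p := by
  rw [frm_apply, frm_apply, Finset.sum_range_succ', coeff_X_mul_zero, zero_smul, add_zero,
    Finset.mul_sum]
  refine Finset.sum_congr rfl fun a _ => ?_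
  rw [coeff_X_mul, mul_smul_comm, Nat.add_sub_add_right, pow_succ]
  congr 1
  ring

theorem frm_succ (u1 u2 : A) (K : ℕ) (p : ℂ[X]) (hp : p.coeff (K + 1) = 0) :
    frm u1 u2 (K + 1) p = u2 * frm u1 u2 K p := by
  rw [frm_apply, frm_apply, Finset.sum_range_succ, hp, zero_smul, add_zero, Finset.mul_sum]
  refine Finset.sum_congr rfl fun a ha => ?_
  have h1 : K + 1 - a = (K - a) + 1 := by
    have := Finset.mem_range.1 ha; omega
  rw [h1, mul_smul_comm, pow_succ]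
  congr 1
  ring

theorem frm_monomial (u1 u2 : A) {K a b : ℕ} (h : a + b = K) :
    frm u1 u2 K (X ^ a) = u1 ^ a * u2 ^ b := by
  rw [frm_apply, Finset.sum_eq_single a]
  · rw [coeff_X_pow, if_pos rfl, one_smul]
    congr 2
    omega
  · intro c _ hc
    rw [coeff_X_pow, if_neg hc, zero_smul]
  · intro ha
    exact absurd (Finset.mem_range.2 (by omega)) ha

theorem DD_le_frm (u1 u2 : A) (K : ℕ) :
    DD u1 u2 K ≤ (degreeLT ℂ (K + 1)).map (frm u1 u2 K) := by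
  unfold DD
  rw [Submodule.span_le]
  rintro _ ⟨p, hp, rfl⟩
  simp only [Finset.mem_coe, Finset.HasAntidiagonal.mem_antidiagonal] at hp
  refine ⟨X ^ p.1, ?_, frm_monomial u1 u2 hp⟩
  rw [SetLike.mem_coe, mem_degreeLT]
  refine lt_of_le_of_lt (degree_X_pow_le _) ?_
  exact_mod_cast (show p.1 < K + 1 by omega)

/-- The initial forms of degree `K` of the elements of `J`. -/
noncomputable def WW (J m : Ideal A) (u1 u2 : A) (K : ℕ) : Submodule ℂ ℂ[X] :=
  degreeLT ℂ (K + 1) ⊓ ((J ⊔ m ^ (K + 1)).restrictScalars ℂ).comap (frm u1 u2 K)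

theorem mem_WW {J m : Ideal A} {u1 u2 : A} {K : ℕ} {p : ℂ[X]} :
    p ∈ WW J m u1 u2 K ↔ p ∈ degreeLT ℂ (K + 1) ∧ frm u1 u2 K p ∈ J ⊔ m ^ (K + 1) := Iff.rfl

instance finite_degreeLT (n : ℕ) : FiniteDimensional ℂ (degreeLT ℂ n) :=
  LinearEquiv.finiteDimensional (degreeLTEquiv ℂ n).symm

theorem finrank_degreeLT (n : ℕ) : finrank ℂ (degreeLT ℂ n) = n := by
  rw [LinearEquiv.finrank_eq (degreeLTEquiv ℂ n)]
  simp

theorem finite_WW (J m : Ideal A) (u1 u2 : A) (K : ℕ) :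
    FiniteDimensional ℂ (WW J m u1 u2 K) :=
  Submodule.finiteDimensional_of_le (inf_le_left : WW J m u1 u2 K ≤ degreeLT ℂ (K + 1))

omit [Algebra ℂ A] in
theorem mul_mem_step {J m : Ideal A} {u x : A} {K : ℕ} (hu : u ∈ m) (hx : x ∈ J ⊔ m ^ (K + 1)) :
    u * x ∈ J ⊔ m ^ (K + 1 + 1) := by
  obtain ⟨g, hg, r, hr, rfl⟩ := Submodule.mem_sup.1 hx
  rw [mul_add]
  refine Submodule.add_mem_sup (Ideal.mul_mem_left _ _ hg) ?_
  rw [pow_succ m (K + 1), mul_comm (m ^ (K + 1))]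
  exact Ideal.mul_mem_mul hu hr

theorem WW_step {J m : Ideal A} {u1 u2 : A} (h1 : u1 ∈ m) (h2 : u2 ∈ m) {K : ℕ}
    (hne : WW J m u1 u2 K ≠ ⊥) :
    finrank ℂ (WW J m u1 u2 K) + 1 ≤ finrank ℂ (WW J m u1 u2 (K + 1)) ∧
      WW J m u1 u2 (K + 1) ≠ ⊥ := by
  have hle : WW J m u1 u2 K ≤ WW J m u1 u2 (K + 1) := by
    intro p hp
    obtain ⟨hp1, hp2⟩ := mem_WW.1 hp
    refine mem_WW.2 ⟨degreeLT_mono (Nat.le_succ _) hp1, ?_⟩
    rw [frm_succ u1 u2 K p]
    · exact mul_mem_step h2 hp2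
    · rw [mem_degreeLT] at hp1
      exact coeff_eq_zero_of_degree_lt hp1
  have hX : ∀ p ∈ WW J m u1 u2 K, X * p ∈ WW J m u1 u2 (K + 1) := by
    intro p hp
    obtain ⟨hp1, hp2⟩ := mem_WW.1 hp
    refine mem_WW.2 ⟨?_, ?_⟩
    · rw [mem_degreeLT] at hp1 ⊢
      rcases eq_or_ne p 0 with rfl | hp0
      · rw [mul_zero, degree_zero]
        exact WithBot.bot_lt_coe _
      · rw [degree_eq_natDegree (mul_ne_zero X_ne_zero hp0), natDegree_X_mul hp0]
        rw [degree_eq_natDegree hp0] at hp1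
        have : p.natDegree < K + 1 := by exact_mod_cast hp1
        exact_mod_cast (show p.natDegree + 1 < K + 1 + 1 by omega)
    · rw [frm_X]
      exact mul_mem_step h1 hp2
  have hnot : ∃ p ∈ WW J m u1 u2 K, X * p ∉ WW J m u1 u2 K := by
    by_contra hcon
    push Not at hcon
    obtain ⟨p, hp, hp0⟩ := Submodule.exists_mem_ne_zero_of_ne_bot hne
    have hpow : ∀ n : ℕ, X ^ n * p ∈ WW J m u1 u2 K := by
      intro n
      induction n with
      | zero => simpa using hp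
      | succ n ih =>
        have := hcon _ ih
        rwa [← mul_assoc, ← pow_succ'] at this
    have h3 := (mem_WW.1 (hpow (K + 1))).1
    rw [mem_degreeLT, degree_eq_natDegree (mul_ne_zero (pow_ne_zero _ X_ne_zero) hp0),
      natDegree_mul (pow_ne_zero _ X_ne_zero) hp0, natDegree_X_pow] at h3
    have h4 : K + 1 + p.natDegree < K + 1 := by exact_mod_cast h3
    omega
  obtain ⟨p, hp, hpX⟩ := hnot
  have hlt : WW J m u1 u2 K < WW J m u1 u2 (K + 1) :=
    lt_of_le_of_ne hle fun he => hpX (by rw [he]; exact hX p hp)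
  have := finite_WW J m u1 u2 (K + 1)
  exact ⟨Submodule.finrank_lt_finrank_of_lt hlt, fun hb => by
    rw [hb] at hlt
    exact not_lt_bot hlt⟩

/-- The growth of the lengths. -/
theorem finrank_succ {J m : Ideal A} {u1 u2 : A} (h1 : u1 ∈ m) (h2 : u2 ∈ m)
    (htop : ∀ f : A, ∃ c : ℂ, f - algebraMap ℂ A c ∈ m)
    (hm : m ≤ J ⊔ Ideal.span {u1, u2} ⊔ m ^ 2) (K : ℕ) :
    finrank ℂ (A ⧸ (J ⊔ m ^ (K + 1))) + finrank ℂ (WW J m u1 u2 K) =
      finrank ℂ (A ⧸ (J ⊔ m ^ K)) + (K + 1) := by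
  have hfin := fun s => (finrank_le J m u1 u2 h1 h2 htop hm s).1
  have hf1 := hfin (K + 1)
  have hf2 := hfin K
  have hle : J ⊔ m ^ (K + 1) ≤ J ⊔ m ^ K := sup_le_sup_left (Ideal.pow_le_pow_right (Nat.le_succ K)) _
  let π : (A ⧸ (J ⊔ m ^ (K + 1))) →ₗ[ℂ] (A ⧸ (J ⊔ m ^ K)) :=
    (Ideal.Quotient.factorₐ ℂ hle).toLinearMap
  have hπ : ∀ f : A, π (Ideal.Quotient.mk _ f) = Ideal.Quotient.mk _ f := fun f => rfl
  have hπs : Function.Surjective π := by
    intro z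
    obtain ⟨f, rfl⟩ := Ideal.Quotient.mk_surjective z
    exact ⟨Ideal.Quotient.mk _ f, hπ f⟩
  let φ : degreeLT ℂ (K + 1) →ₗ[ℂ] (A ⧸ (J ⊔ m ^ (K + 1))) :=
    ((Ideal.Quotient.mkₐ ℂ (J ⊔ m ^ (K + 1))).toLinearMap.comp (frm u1 u2 K)).comp
      (degreeLT ℂ (K + 1)).subtype
  have hφ : ∀ p, φ p = Ideal.Quotient.mk _ (frm u1 u2 K (p : ℂ[X])) := fun p => rfl
  have hrange : LinearMap.range φ = LinearMap.ker π := by
    apply le_antisymm
    · rintro _ ⟨p, rfl⟩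
      rw [LinearMap.mem_ker, hφ, hπ, Ideal.Quotient.eq_zero_iff_mem]
      exact Ideal.mem_sup_right (frm_mem h1 h2 K _)
    · intro z hz
      obtain ⟨f, rfl⟩ := Ideal.Quotient.mk_surjective z
      rw [LinearMap.mem_ker, hπ, Ideal.Quotient.eq_zero_iff_mem] at hz
      obtain ⟨g, hg, h, hh, rfl⟩ := Submodule.mem_sup.1 hz
      have h3 := pow_le_DD J m u1 u2 h1 h2 htop hm K (show h ∈ (m ^ K).restrictScalars ℂ from hh)
      obtain ⟨e, he, r, hr, rfl⟩ := Submodule.mem_sup.1 h3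
      obtain ⟨d, hd, κ, hκ, rfl⟩ := Submodule.mem_sup.1 he
      obtain ⟨q, hq, rfl⟩ := DD_le_frm u1 u2 K hd
      refine ⟨⟨q, hq⟩, ?_⟩
      rw [hφ, Ideal.Quotient.eq]
      have h4 : frm u1 u2 K q - (g + (frm u1 u2 K q + κ + r)) = -(g + κ) - r := by ring
      rw [h4]
      refine sub_mem (Ideal.mem_sup_left (neg_mem (add_mem hg hκ))) (Ideal.mem_sup_right hr)
  have hker : finrank ℂ (LinearMap.ker φ) = finrank ℂ (WW J m u1 u2 K) := by
    have h5 : WW J m u1 u2 K = (LinearMap.ker φ).map (degreeLT ℂ (K + 1)).subtype := by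
      ext p
      rw [mem_WW, Submodule.mem_map]
      constructor
      · rintro ⟨h6, h7⟩
        refine ⟨⟨p, h6⟩, ?_, rfl⟩
        rw [LinearMap.mem_ker, hφ, Ideal.Quotient.eq_zero_iff_mem]
        exact h7
      · rintro ⟨q, hq, rfl⟩
        rw [LinearMap.mem_ker, hφ, Ideal.Quotient.eq_zero_iff_mem] at hq
        exact ⟨q.2, hq⟩
    rw [h5]
    exact (Submodule.finrank_map_subtype_eq _ _).symm
  have e1 := LinearMap.finrank_range_add_finrank_ker π
  have e2 := LinearMap.finrank_range_add_finrank_ker φ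
  rw [LinearMap.range_eq_top.2 hπs, finrank_top] at e1
  rw [hrange, hker, finrank_degreeLT] at e2
  omega

/-- **Existence of the multiplicity.** -/
theorem exists_mult {J m : Ideal A} {u1 u2 : A} (h1 : u1 ∈ m) (h2 : u2 ∈ m)
    (htop : ∀ f : A, ∃ c : ℂ, f - algebraMap ℂ A c ∈ m)
    (hm : m ≤ J ⊔ Ideal.span {u1, u2} ⊔ m ^ 2) {k : ℕ} (hk : WW J m u1 u2 k ≠ ⊥) :
    ∃ K1 μ c : ℕ, ∀ K, K1 ≤ K → finrank ℂ (A ⧸ (J ⊔ m ^ K)) = μ * (K - K1) + c := by
  classical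
  set w : ℕ → ℕ := fun K => finrank ℂ (WW J m u1 u2 K) with hw
  set f : ℕ → ℕ := fun K => finrank ℂ (A ⧸ (J ⊔ m ^ K)) with hf
  have hfs : ∀ K, f (K + 1) + w K = f K + (K + 1) := fun K => finrank_succ h1 h2 htop hm K
  have hwle : ∀ K, w K ≤ K + 1 := by
    intro K
    have h3 := Submodule.finrank_mono (inf_le_left : WW J m u1 u2 K ≤ degreeLT ℂ (K + 1))
    rwa [finrank_degreeLT] at h3
  have hne : ∀ K, k ≤ K → WW J m u1 u2 K ≠ ⊥ := by
    intro K hK
    induction K, hK using Nat.le_induction with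
    | base => exact hk
    | succ K _ ih => exact (WW_step h1 h2 ih).2
  have hws : ∀ K, k ≤ K → w K + 1 ≤ w (K + 1) := fun K hK => (WW_step h1 h2 (hne K hK)).1
  -- the differences
  have hex : ∃ d : ℕ, ∃ K, k ≤ K ∧ K + 1 - w K = d := ⟨_, k, le_refl _, rfl⟩
  obtain ⟨K1, hK1, hd⟩ := Nat.find_spec hex
  set μ := Nat.find hex with hμ
  have hmin : ∀ K, k ≤ K → μ ≤ K + 1 - w K := fun K hK => Nat.find_min' hex ⟨K, hK, rfl⟩
  have hconst : ∀ K, K1 ≤ K → K + 1 - w K = μ := by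
    intro K hK
    induction K, hK using Nat.le_induction with
    | base => exact hd
    | succ K hK ih =>
      have h3 := hws K (hK1.trans hK)
      have h4 := hmin (K + 1) (by omega)
      have h5 := hwle K
      have h6 := hwle (K + 1)
      omega
  refine ⟨K1, μ, f K1, fun K hK => ?_⟩
  show f K = _
  induction K, hK using Nat.le_induction with
  | base => simp
  | succ K hK ih =>
    have h3 := hfs K
    have h4 := hconst K hK
    have h5 := hwle K
    have h6 : K + 1 - K1 = (K - K1) + 1 := by omega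
    rw [h6, mul_add, mul_one]
    omega

end Pool.Agent.TH611.M5
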