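import Pool.Agent.W607.Defs

/-!
Local part of the passage to very general points: away from a hypersurface the ring of jets of
order `< s` at a point of a surface has dimension at most `s (s + 1) / 2`.
-/

set_option autoImplicit false

namespace Pool.Agent.TH611.M5

open MvPolynomial Pool.Agent.W607

section span

variable {A : Type} [CommRing A] [Algebra ℂ A]

/-- The span of the monomials of degree `k` in `u1, u2`. -/
noncomputable def DD (u1 u2 : A) (k : ℕ) : Submodule ℂ A :=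
  Submodule.span ℂ ((fun p : ℕ × ℕ => u1 ^ p.1 * u2 ^ p.2) '' (Finset.HasAntidiagonal.antidiagonal k : Set (ℕ × ℕ)))

theorem mem_DD (u1 u2 : A) {k a b : ℕ} (h : a + b = k) : u1 ^ a * u2 ^ b ∈ DD u1 u2 k :=
  Submodule.subset_span ⟨(a, b), by simpa using h, rfl⟩

theorem DD_mul (u1 u2 : A) (k l : ℕ) : DD u1 u2 k * DD u1 u2 l ≤ DD u1 u2 (k + l) := by
  unfold DD
  rw [Submodule.span_mul_span, Submodule.span_le]
  rintro _ ⟨_, ⟨p, hp, rfl⟩, _, ⟨q, hq, rfl⟩, rfl⟩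
  simp only [Finset.mem_coe, Finset.HasAntidiagonal.mem_antidiagonal] at hp hq
  have h1 : u1 ^ p.1 * u2 ^ p.2 * (u1 ^ q.1 * u2 ^ q.2) =
      u1 ^ (p.1 + q.1) * u2 ^ (p.2 + q.2) := by
    rw [pow_add, pow_add]; ring
  show u1 ^ p.1 * u2 ^ p.2 * (u1 ^ q.1 * u2 ^ q.2) ∈ _
  rw [h1]
  exact mem_DD u1 u2 (by omega)

theorem DD_one (u1 u2 : A) : DD u1 u2 1 = Submodule.span ℂ {u1, u2} := by
  apply le_antisymm
  · unfold DD
    rw [Submodule.span_le]
    rintro _ ⟨p, hp, rfl⟩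
    simp only [Finset.mem_coe, Finset.HasAntidiagonal.mem_antidiagonal] at hp
    rcases p with ⟨a, b⟩
    simp only at hp ⊢
    rcases Nat.eq_zero_or_pos a with ha | ha
    · subst ha
      have hb : b = 1 := by omega
      subst hb
      simp only [pow_zero, pow_one, one_mul]
      exact Submodule.subset_span (by simp)
    · have ha : a = 1 := by omega
      have hb : b = 0 := by omega
      subst ha hb
      simp only [pow_zero, pow_one, mul_one]
      exact Submodule.subset_span (by simp)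
  · rw [Submodule.span_le]
    rintro f hf
    rcases hf with rfl | hf
    · have := mem_DD f u2 (k := 1) (a := 1) (b := 0) rfl
      simpa using this
    · rw [Set.mem_singleton_iff] at hf
      subst hf
      have := mem_DD u1 f (k := 1) (a := 0) (b := 1) rfl
      simpa using this

theorem DD_zero (u1 u2 : A) : DD u1 u2 0 = Submodule.span ℂ {1} := by
  unfold DD
  simp

/-- The graded claim. -/
theorem pow_le_DD (K m : Ideal A) (u1 u2 : A) (h1 : u1 ∈ m) (h2 : u2 ∈ m)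
    (htop : ∀ f : A, ∃ c : ℂ, f - algebraMap ℂ A c ∈ m)
    (hm : m ≤ K ⊔ Ideal.span {u1, u2} ⊔ m ^ 2) (k : ℕ) :
    (m ^ k).restrictScalars ℂ ≤
      DD u1 u2 k ⊔ K.restrictScalars ℂ ⊔ (m ^ (k + 1)).restrictScalars ℂ := by
  -- linear version of `hm`
  have hm1 : ∀ f ∈ m, ∃ d ∈ DD u1 u2 1, ∃ κ ∈ K, ∃ r ∈ m ^ 2, f = d + κ + r := by
    intro f hf
    obtain ⟨g, hg, r, hr, hgr⟩ := Submodule.mem_sup.1 (hm hf)
    obtain ⟨κ, hκ, e, he, hκe⟩ := Submodule.mem_sup.1 hg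
    obtain ⟨a, b, hab⟩ := Ideal.mem_span_pair.1 he
    obtain ⟨ca, hca⟩ := htop a
    obtain ⟨cb, hcb⟩ := htop b
    refine ⟨ca • u1 + cb • u2, ?_, κ, hκ, (a - algebraMap ℂ A ca) * u1 +
      (b - algebraMap ℂ A cb) * u2 + r, ?_, ?_⟩
    · rw [DD_one]
      exact Submodule.add_mem _ (Submodule.smul_mem _ _ (Submodule.subset_span (by simp)))
        (Submodule.smul_mem _ _ (Submodule.subset_span (by simp)))
    · refine add_mem (add_mem ?_ ?_) hr
      · rw [pow_two]; exact Ideal.mul_mem_mul hca h1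
      · rw [pow_two]; exact Ideal.mul_mem_mul hcb h2
    · rw [← hgr, ← hκe, ← hab, Algebra.smul_def, Algebra.smul_def]
      ring
  have hDm : ∀ k, ∀ f ∈ DD u1 u2 k, f ∈ m ^ k := by
    intro k f hf
    have : DD u1 u2 k ≤ (m ^ k).restrictScalars ℂ := by
      unfold DD
      rw [Submodule.span_le]
      rintro _ ⟨p, hp, rfl⟩
      simp only [Finset.mem_coe, Finset.HasAntidiagonal.mem_antidiagonal] at hp
      show u1 ^ p.1 * u2 ^ p.2 ∈ m ^ k
      rw [← hp, pow_add]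
      exact Ideal.mul_mem_mul (Ideal.pow_mem_pow h1 _) (Ideal.pow_mem_pow h2 _)
    exact this hf
  induction k with
  | zero =>
    intro f _
    obtain ⟨c, hc⟩ := htop f
    have h3 : f = c • (1 : A) + (f - algebraMap ℂ A c) := by
      rw [Algebra.smul_def, mul_one]; ring
    rw [h3]
    refine Submodule.add_mem_sup (Submodule.mem_sup_left ?_) ?_
    · rw [DD_zero]
      exact Submodule.smul_mem _ _ (Submodule.subset_span rfl)
    · show _ ∈ m ^ (0 + 1)
      rw [zero_add, pow_one]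
      exact hc
  | succ k ih =>
    intro f hf
    have hf' : f ∈ m ^ k * m := by
      have : f ∈ m ^ (k + 1) := hf
      rwa [pow_succ] at this
    refine Submodule.mul_induction_on hf' (fun p hp q hq => ?_) (fun x y hx hy => add_mem hx hy)
    obtain ⟨g, hg, r, hr, hgr⟩ := Submodule.mem_sup.1 (ih (show p ∈ _ from hp))
    obtain ⟨d, hd, κ, hκ, hdκ⟩ := Submodule.mem_sup.1 hg
    obtain ⟨d', hd', κ', hκ', r', hr', hq'⟩ := hm1 q hq
    have hr : r ∈ m ^ (k + 1) := hr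
    have hκ : κ ∈ K := hκ
    have h4 : p * q = d * d' + (κ * q + d * κ') + (r * q + d * r') := by
      have : p = d + κ + r := by rw [hdκ, hgr]
      rw [this]
      have e1 : (d + κ + r) * q = d * q + κ * q + r * q := by ring
      rw [e1]
      have e2 : d * q = d * d' + d * κ' + d * r' := by rw [hq']; ring
      rw [e2]
      ring
    rw [h4]
    refine Submodule.add_mem_sup (Submodule.add_mem_sup ?_ ?_) ?_
    · exact DD_mul u1 u2 k 1 (Submodule.mul_mem_mul hd hd')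
    · show _ ∈ K
      exact add_mem (Ideal.mul_mem_right _ _ hκ) (Ideal.mul_mem_left _ _ hκ')
    · show _ ∈ m ^ (k + 1 + 1)
      refine add_mem ?_ ?_
      · rw [pow_succ m (k + 1)]
        exact Ideal.mul_mem_mul hr hq
      · have h5 : m ^ (k + 1 + 1) = m ^ k * m ^ 2 := by rw [← pow_add]
        rw [h5]
        exact Ideal.mul_mem_mul (hDm k d hd) hr'

/-- The finset of the exponents of degree `< s`. -/
def TT (s : ℕ) : Finset (Σ _ : ℕ, ℕ × ℕ) :=
  (Finset.range s).sigma (fun k => Finset.HasAntidiagonal.antidiagonal k)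

theorem card_TT (s : ℕ) : (TT s).card = s * (s + 1) / 2 := by
  unfold TT
  rw [Finset.card_sigma]
  simp only [Finset.Nat.card_antidiagonal]
  have h : ∀ s : ℕ, 2 * ∑ k ∈ Finset.range s, (k + 1) = s * (s + 1) := by
    intro s
    induction s with
    | zero => simp
    | succ s ih =>
      rw [Finset.sum_range_succ, mul_add, ih]
      ring
  rw [← h s]
  omega

theorem top_le (K m : Ideal A) (u1 u2 : A) (h1 : u1 ∈ m) (h2 : u2 ∈ m)
    (htop : ∀ f : A, ∃ c : ℂ, f - algebraMap ℂ A c ∈ m)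
    (hm : m ≤ K ⊔ Ideal.span {u1, u2} ⊔ m ^ 2) (s : ℕ) :
    (⊤ : Submodule ℂ A) ≤
      Submodule.span ℂ ((fun i : (Σ _ : ℕ, ℕ × ℕ) => u1 ^ i.2.1 * u2 ^ i.2.2) ''
        (TT s : Set (Σ _ : ℕ, ℕ × ℕ))) ⊔ K.restrictScalars ℂ ⊔ (m ^ s).restrictScalars ℂ := by
  induction s with
  | zero =>
    intro f _
    refine Submodule.mem_sup_right ?_
    show f ∈ m ^ 0
    rw [pow_zero, Ideal.one_eq_top]
    exact Submodule.mem_top
  | succ s ih =>
    refine ih.trans (sup_le (sup_le ?_ ?_) ?_)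
    · refine le_trans (Submodule.span_mono (Set.image_mono ?_)) (le_sup_left.trans le_sup_left)
      intro i hi
      simp only [TT, Finset.coe_sigma, Finset.coe_range, Set.mem_sigma_iff, Set.mem_Iio,
        Finset.mem_coe] at hi ⊢
      exact ⟨by omega, hi.2⟩
    · exact le_sup_right.trans le_sup_left
    · refine (pow_le_DD K m u1 u2 h1 h2 htop hm s).trans (sup_le (sup_le ?_ ?_) ?_)
      · refine le_trans ?_ (le_sup_left.trans le_sup_left)
        unfold DD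
        refine Submodule.span_mono ?_
        rintro _ ⟨p, hp, rfl⟩
        refine ⟨⟨s, p⟩, ?_, rfl⟩
        simp only [TT, Finset.coe_sigma, Finset.coe_range, Set.mem_sigma_iff, Set.mem_Iio,
          Finset.mem_coe]
        exact ⟨by omega, hp⟩
      · exact le_sup_right.trans le_sup_left
      · exact le_sup_right

theorem finrank_le (K m : Ideal A) (u1 u2 : A) (h1 : u1 ∈ m) (h2 : u2 ∈ m)
    (htop : ∀ f : A, ∃ c : ℂ, f - algebraMap ℂ A c ∈ m)
    (hm : m ≤ K ⊔ Ideal.span {u1, u2} ⊔ m ^ 2) (s : ℕ) :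
    FiniteDimensional ℂ (A ⧸ (K ⊔ m ^ s)) ∧
      Module.finrank ℂ (A ⧸ (K ⊔ m ^ s)) ≤ s * (s + 1) / 2 := by
  classical
  let φ : A →ₗ[ℂ] A ⧸ (K ⊔ m ^ s) := (Ideal.Quotient.mkₐ ℂ (K ⊔ m ^ s)).toLinearMap
  have hφs : Function.Surjective φ := Ideal.Quotient.mkₐ_surjective ℂ _
  have hφ0 : ∀ f ∈ K ⊔ m ^ s, φ f = 0 := fun f hf => Ideal.Quotient.eq_zero_iff_mem.2 hf
  let v : (Σ _ : ℕ, ℕ × ℕ) → A := fun i => u1 ^ i.2.1 * u2 ^ i.2.2
  have hspan : (⊤ : Submodule ℂ (A ⧸ (K ⊔ m ^ s))) =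
      Submodule.span ℂ (((TT s).image (fun i => φ (v i)) : Finset _) :
        Set (A ⧸ (K ⊔ m ^ s))) := by
    apply le_antisymm _ le_top
    rw [← LinearMap.range_eq_top.2 hφs, LinearMap.range_eq_map]
    refine (Submodule.map_mono (top_le K m u1 u2 h1 h2 htop hm s)).trans ?_
    rw [Submodule.map_sup, Submodule.map_sup]
    refine sup_le (sup_le ?_ ?_) ?_
    · rw [Submodule.map_span, Finset.coe_image, Set.image_image]
    · rintro _ ⟨f, hf, rfl⟩
      rw [hφ0 f (Ideal.mem_sup_left hf)]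
      exact zero_mem _
    · rintro _ ⟨f, hf, rfl⟩
      rw [hφ0 f (Ideal.mem_sup_right hf)]
      exact zero_mem _
  have hfin : FiniteDimensional ℂ (A ⧸ (K ⊔ m ^ s)) := ⟨⟨_, hspan.symm⟩⟩
  refine ⟨hfin, ?_⟩
  rw [← finrank_top, hspan, ← card_TT s]
  exact (finrank_span_finset_le_card _).trans Finset.card_image_le

end span

section points

variable {σ : Type}

theorem sub_eval_mem (w : σ → ℂ) (f : MvPolynomial σ ℂ) : f - C (eval w f) ∈ mw w := by
  induction f using MvPolynomial.induction_on with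
  | C a => simp
  | add p q hp hq =>
    have : p + q - C (eval w (p + q)) = (p - C (eval w p)) + (q - C (eval w q)) := by
      rw [map_add, C_add]; ring
    rw [this]
    exact add_mem hp hq
  | mul_X p i hp =>
    have : p * X i - C (eval w (p * X i)) =
        (p - C (eval w p)) * X i + C (eval w p) * (X i - C (w i)) := by
      rw [map_mul, eval_X, C_mul]; ring
    rw [this]
    refine add_mem (Ideal.mul_mem_right _ _ hp) (Ideal.mul_mem_left _ _ ?_)
    exact Ideal.subset_span ⟨i, rfl⟩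

theorem mem_mw_iff (w : σ → ℂ) (f : MvPolynomial σ ℂ) : f ∈ mw w ↔ eval w f = 0 := by
  constructor
  · intro hf
    have : mw w ≤ RingHom.ker (eval w) := by
      unfold mw
      rw [Ideal.span_le]
      rintro _ ⟨i, rfl⟩
      show eval w (X i - C (w i)) = 0
      rw [map_sub, eval_X, eval_C, sub_self]
    exact this hf
  · intro hf
    have := sub_eval_mem w f
    rwa [hf, C_0, sub_zero] at this

/-- Clearing denominators. -/
theorem clear (a1 a2 b : MvPolynomial σ ℂ) (i : σ) (F : BB ℂ) :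
    ∃ (G : MvPolynomial σ ℂ) (N : ℕ), ∀ (R : Type) [CommRing R] [Algebra ℂ R]
      (φ : MvPolynomial σ ℂ →ₐ[ℂ] R) (ξ η : R), φ b * ξ = φ a1 → φ b * η = φ a2 →
        φ G = φ b ^ N * ev (K := ℂ) ξ η (φ (X i)) F := by
  have h1 : ∀ p : AA ℂ, ∃ (G : MvPolynomial σ ℂ) (N : ℕ), ∀ (R : Type) [CommRing R] [Algebra ℂ R]
      (φ : MvPolynomial σ ℂ →ₐ[ℂ] R) (ξ η : R), φ b * ξ = φ a1 → φ b * η = φ a2 →
        φ G = φ b ^ N * aeval ![ξ, η] p := by
    intro p
    induction p using MvPolynomial.induction_on with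
    | C c =>
      refine ⟨C c, 0, fun R _ _ φ ξ η _ _ => ?_⟩
      rw [pow_zero, one_mul, aeval_C]
      exact φ.commutes c
    | add p q hp hq =>
      obtain ⟨G1, N1, h1⟩ := hp
      obtain ⟨G2, N2, h2⟩ := hq
      refine ⟨b ^ N2 * G1 + b ^ N1 * G2, N1 + N2, fun R _ _ φ ξ η hξ hη => ?_⟩
      rw [map_add, map_mul, map_mul, map_pow, map_pow, h1 R φ ξ η hξ hη, h2 R φ ξ η hξ hη,
        map_add, pow_add]
      ring
    | mul_X p j hp =>
      obtain ⟨G1, N1, h1⟩ := hp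
      fin_cases j
      · refine ⟨G1 * a1, N1 + 1, fun R _ _ φ ξ η hξ hη => ?_⟩
        rw [map_mul, h1 R φ ξ η hξ hη, ← hξ, map_mul, aeval_X, pow_succ]
        simp only [Fin.zero_eta, Fin.isValue, Matrix.cons_val_zero]
        ring
      · refine ⟨G1 * a2, N1 + 1, fun R _ _ φ ξ η hξ hη => ?_⟩
        rw [map_mul, h1 R φ ξ η hξ hη, ← hη, map_mul, aeval_X, pow_succ]
        simp only [Fin.mk_one, Fin.isValue, Matrix.cons_val_one, Matrix.cons_val_fin_one]
        ring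
  induction F using Polynomial.induction_on' with
  | add p q hp hq =>
    obtain ⟨G1, N1, h1⟩ := hp
    obtain ⟨G2, N2, h2⟩ := hq
    refine ⟨b ^ N2 * G1 + b ^ N1 * G2, N1 + N2, fun R _ _ φ ξ η hξ hη => ?_⟩
    rw [map_add, map_mul, map_mul, map_pow, map_pow, h1 R φ ξ η hξ hη, h2 R φ ξ η hξ hη,
      map_add, pow_add]
    ring
  | monomial k a =>
    obtain ⟨G, N, h⟩ := h1 a
    refine ⟨G * X i ^ k, N, fun R _ _ φ ξ η hξ hη => ?_⟩
    rw [map_mul, map_pow, h R φ ξ η hξ hη]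
    unfold ev
    rw [Polynomial.coe_eval₂RingHom, Polynomial.eval₂_monomial]
    simp only [RingHom.coe_coe]
    ring

variable {FF : Type} [Field FF] [Algebra ℂ FF]

/-- A separating equation. -/
theorem exists_sep (x y : FF)
    (halg : ∀ z : FF, ∃ Q : BB ℂ, Q ≠ 0 ∧ ev (K := ℂ) x y z Q = 0)
    (hxy : ∀ Q : AA ℂ, aeval ![x, y] Q = 0 → Q = 0) (z : FF) :
    ∃ Q : BB ℂ, ev (K := ℂ) x y z Q = 0 ∧ ev (K := ℂ) x y z (Polynomial.derivative Q) ≠ 0 := by
  classical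
  have hex : ∃ d : ℕ, ∃ Q : BB ℂ, Q ≠ 0 ∧ ev (K := ℂ) x y z Q = 0 ∧ Q.natDegree = d := by
    obtain ⟨Q, hQ, hQ0⟩ := halg z
    exact ⟨_, Q, hQ, hQ0, rfl⟩
  obtain ⟨Q, hQ, hQ0, hQd⟩ := Nat.find_spec hex
  have hmin : ∀ Q' : BB ℂ, Q' ≠ 0 → ev (K := ℂ) x y z Q' = 0 →
      Nat.find hex ≤ Q'.natDegree := fun Q' h1 h2 => Nat.find_min' hex ⟨Q', h1, h2, rfl⟩
  have hd : Q.natDegree ≠ 0 := by
    intro h0
    obtain ⟨a, ha⟩ := Polynomial.natDegree_eq_zero.1 h0
    rw [← ha] at hQ0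
    unfold ev at hQ0
    rw [Polynomial.coe_eval₂RingHom, Polynomial.eval₂_C] at hQ0
    have := hxy a hQ0
    apply hQ
    rw [← ha, this, Polynomial.C_0]
  refine ⟨Q, hQ0, fun h0 => ?_⟩
  have hder : Polynomial.derivative Q ≠ 0 := by
    intro h
    exact hd (Polynomial.derivative_eq_zero.1 h)
  have h1 := hmin _ hder h0
  have h2 := Polynomial.natDegree_derivative_lt hd
  omega

/-- The local part: generic points of a surface have tangent spaces of dimension at most two. -/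
theorem loc1 [Finite σ] (π : MvPolynomial σ ℂ →ₐ[ℂ] FF) (hfrac : ∀ z : FF, ∃ f g, π g ≠ 0 ∧ z * π g = π f)
    (x y : FF) (halg : ∀ z : FF, ∃ Q : BB ℂ, Q ≠ 0 ∧ ev (K := ℂ) x y z Q = 0)
    (hxy : ∀ Q : AA ℂ, aeval ![x, y] Q = 0 → Q = 0) :
    ∃ Δ : MvPolynomial σ ℂ, π Δ ≠ 0 ∧ ∀ w : σ → ℂ, (∀ f, π f = 0 → eval w f = 0) →
      eval w Δ ≠ 0 → ∃ u1 u2 : MvPolynomial σ ℂ, u1 ∈ mw w ∧ u2 ∈ mw w ∧
        mw w ≤ RingHom.ker π ⊔ Ideal.span {u1, u2} ⊔ (mw w) ^ 2 := by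
  classical
  cases nonempty_fintype σ
  obtain ⟨A1, B1, hB1, hA1⟩ := hfrac x
  obtain ⟨A2, B2, hB2, hA2⟩ := hfrac y
  set b := B1 * B2 with hb
  set a1 := A1 * B2 with ha1
  set a2 := A2 * B1 with ha2
  have hbx : π b * x = π a1 := by
    rw [hb, ha1, map_mul, map_mul, ← hA1]; ring
  have hby : π b * y = π a2 := by
    rw [hb, ha2, map_mul, map_mul, ← hA2]; ring
  have hb0 : π b ≠ 0 := by
    rw [hb, map_mul]; exact mul_ne_zero hB1 hB2
  clear_value a1 a2 b
  choose Q hQ hQ' using fun i : σ => exists_sep x y halg hxy (π (X i))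
  choose G N hG using fun i : σ => clear a1 a2 b i (Q i)
  choose G' N' hG' using fun i : σ => clear a1 a2 b i (Polynomial.derivative (Q i))
  refine ⟨b * ∏ i, G' i, ?_, fun w hw hΔ => ?_⟩
  · rw [map_mul, map_prod]
    refine mul_ne_zero hb0 (Finset.prod_ne_zero_iff.2 fun i _ => ?_)
    rw [hG' i FF π x y hbx hby]
    exact mul_ne_zero (pow_ne_zero _ hb0) (hQ' i)
  rw [map_mul, map_prod] at hΔ
  have hbw : eval w b ≠ 0 := left_ne_zero_of_mul hΔ
  have hG'w : ∀ i, eval w (G' i) ≠ 0 := fun i =>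
    Finset.prod_ne_zero_iff.1 (right_ne_zero_of_mul hΔ) i (Finset.mem_univ i)
  set ξ : ℂ := eval w a1 / eval w b with hξ
  set η : ℂ := eval w a2 / eval w b with hη
  have hξw : eval w b * ξ = eval w a1 := by rw [hξ]; field_simp
  have hηw : eval w b * η = eval w a2 := by rw [hη]; field_simp
  have hc : ∀ f, (aeval w : MvPolynomial σ ℂ →ₐ[ℂ] ℂ) f = eval w f := fun f => rfl
  -- values
  have hev0 : ∀ i, ev (K := ℂ) ξ η (w i) (Q i) = 0 := by
    intro i
    have h1 := hG i ℂ (aeval w) ξ η (by rw [hc, hc]; exact hξw) (by rw [hc, hc]; exact hηw)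
    rw [hc, hc, aeval_X] at h1
    have h2 : π (G i) = 0 := by rw [hG i FF π x y hbx hby, hQ i, mul_zero]
    rw [hw _ h2] at h1
    exact (mul_eq_zero.1 h1.symm).resolve_left (pow_ne_zero _ hbw)
  have hev1 : ∀ i, ev (K := ℂ) ξ η (w i) (Polynomial.derivative (Q i)) ≠ 0 := by
    intro i
    have h1 := hG' i ℂ (aeval w) ξ η (by rw [hc, hc]; exact hξw) (by rw [hc, hc]; exact hηw)
    rw [hc, hc, aeval_X] at h1
    intro h0
    rw [h0, mul_zero] at h1
    exact hG'w i h1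
  set u1 : MvPolynomial σ ℂ := a1 - C ξ * b with hu1
  set u2 : MvPolynomial σ ℂ := a2 - C η * b with hu2
  have hu1m : u1 ∈ mw w := by
    rw [mem_mw_iff, hu1, map_sub (eval w), map_mul (eval w) (C ξ) b, eval_C, ← hξw]; ring
  have hu2m : u2 ∈ mw w := by
    rw [mem_mw_iff, hu2, map_sub (eval w), map_mul (eval w) (C η) b, eval_C, ← hηw]; ring
  refine ⟨u1, u2, hu1m, hu2m, ?_⟩
  set J : Ideal (MvPolynomial σ ℂ) := RingHom.ker π ⊔ Ideal.span {u1, u2} ⊔ (mw w) ^ 2 with hJ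
  let φ : MvPolynomial σ ℂ →ₐ[ℂ] (MvPolynomial σ ℂ ⧸ J) := Ideal.Quotient.mkₐ ℂ J
  have hφ : ∀ f, φ f = 0 ↔ f ∈ J := fun f => Ideal.Quotient.eq_zero_iff_mem
  have hsq : ∀ f ∈ mw w, φ f ^ 2 = 0 := by
    intro f hf
    rw [← map_pow, hφ]
    exact Ideal.mem_sup_right (Ideal.pow_mem_pow hf 2)
  have hφξ : φ b * algebraMap ℂ _ ξ = φ a1 := by
    have h1 : φ u1 = 0 := (hφ _).2 (Ideal.mem_sup_left (Ideal.mem_sup_right
      (Ideal.subset_span (by simp))))
    rw [hu1, map_sub, map_mul, sub_eq_zero] at h1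
    rw [h1, mul_comm]
    congr 1
  have hφη : φ b * algebraMap ℂ _ η = φ a2 := by
    have h1 : φ u2 = 0 := (hφ _).2 (Ideal.mem_sup_left (Ideal.mem_sup_right
      (Ideal.subset_span (by simp))))
    rw [hu2, map_sub, map_mul, sub_eq_zero] at h1
    rw [h1, mul_comm]
    congr 1
  have hφb : IsUnit (φ b) := by
    have h1 : φ (b - C (eval w b)) ^ 2 = 0 := hsq _ (sub_eval_mem w b)
    have h2 : φ b = φ (b - C (eval w b)) + algebraMap ℂ _ (eval w b) := by
      rw [map_sub]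
      have : φ (C (eval w b)) = algebraMap ℂ _ (eval w b) := φ.commutes _
      rw [this]; ring
    have h3 : IsUnit (algebraMap ℂ (MvPolynomial σ ℂ ⧸ J) (eval w b)) :=
      (IsUnit.mk0 _ hbw).map _
    rw [h2]
    exact IsNilpotent.isUnit_add_right_of_commute ⟨2, h1⟩ h3 (Commute.all _ _)
  have hXi : ∀ i, X i - C (w i) ∈ J := by
    intro i
    rw [← hφ]
    have h1 := hG i (MvPolynomial σ ℂ ⧸ J) φ (algebraMap ℂ _ ξ) (algebraMap ℂ _ η) hφξ hφη
    have h2 : φ (G i) = 0 := by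
      rw [hφ]
      refine Ideal.mem_sup_left (Ideal.mem_sup_left ?_)
      show π (G i) = 0
      rw [hG i FF π x y hbx hby, hQ i, mul_zero]
    rw [h2] at h1
    have h3 : ev (K := ℂ) (algebraMap ℂ (MvPolynomial σ ℂ ⧸ J) ξ)
        (algebraMap ℂ (MvPolynomial σ ℂ ⧸ J) η) (φ (X i)) (Q i) = 0 := by
      have := h1.symm
      rwa [(hφb.pow (N i)).mul_right_eq_zero] at this
    -- pass to a polynomial over `ℂ`
    set q : Polynomial ℂ := (Q i).map ((aeval ![ξ, η] : AA ℂ →ₐ[ℂ] ℂ) : AA ℂ →+* ℂ) with hq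
    have hev : ∀ (R : Type) [CommRing R] [Algebra ℂ R] (z : R) (F : BB ℂ),
        ev (K := ℂ) (algebraMap ℂ R ξ) (algebraMap ℂ R η) z F =
          Polynomial.aeval z (F.map ((aeval ![ξ, η] : AA ℂ →ₐ[ℂ] ℂ) : AA ℂ →+* ℂ)) := by
      intro R _ _ z F
      unfold ev
      rw [Polynomial.coe_eval₂RingHom, Polynomial.aeval_def, Polynomial.eval₂_map]
      congr 1
      ext j
      · simp
      · fin_cases j <;> simp
    rw [hev] at h3
    have h4 : φ (X i) = algebraMap ℂ _ (w i) + φ (X i - C (w i)) := by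
      rw [map_sub]
      have : φ (C (w i)) = algebraMap ℂ _ (w i) := φ.commutes _
      rw [this]; ring
    have h5 : φ (X i - C (w i)) ^ 2 = 0 := hsq _ (Ideal.subset_span ⟨i, rfl⟩)
    rw [h4, Polynomial.aeval_add_of_sq_eq_zero _ _ _ h5, Polynomial.aeval_algebraMap_apply,
      Polynomial.aeval_algebraMap_apply, Polynomial.derivative_map] at h3
    have h6 : Polynomial.aeval (w i) ((Q i).map ((aeval ![ξ, η] : AA ℂ →ₐ[ℂ] ℂ) :
        AA ℂ →+* ℂ)) = 0 := by
      rw [← hev ℂ (w i) (Q i)]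
      exact hev0 i
    have h7 : Polynomial.aeval (w i) ((Polynomial.derivative (Q i)).map
        ((aeval ![ξ, η] : AA ℂ →ₐ[ℂ] ℂ) : AA ℂ →+* ℂ)) ≠ 0 := by
      rw [← hev ℂ (w i) (Polynomial.derivative (Q i))]
      exact hev1 i
    rw [h6, map_zero, zero_add] at h3
    have h8 : IsUnit (algebraMap ℂ (MvPolynomial σ ℂ ⧸ J)
        (Polynomial.aeval (w i) ((Polynomial.derivative (Q i)).map
        ((aeval ![ξ, η] : AA ℂ →ₐ[ℂ] ℂ) : AA ℂ →+* ℂ)))) := (IsUnit.mk0 _ h7).map _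
    rwa [h8.mul_right_eq_zero] at h3
  unfold mw
  rw [Ideal.span_le]
  rintro _ ⟨i, rfl⟩
  exact hXi i

/-- **The local part of M5.** -/
theorem loc [Finite σ] (π : MvPolynomial σ ℂ →ₐ[ℂ] FF) (hfrac : ∀ z : FF, ∃ f g, π g ≠ 0 ∧ z * π g = π f)
    (x y : FF) (halg : ∀ z : FF, ∃ Q : BB ℂ, Q ≠ 0 ∧ ev (K := ℂ) x y z Q = 0)
    (hxy : ∀ Q : AA ℂ, aeval ![x, y] Q = 0 → Q = 0) :
    ∃ Δ : MvPolynomial σ ℂ, π Δ ≠ 0 ∧ ∀ w : σ → ℂ, (∀ f, π f = 0 → eval w f = 0) →
      eval w Δ ≠ 0 → ∀ s : ℕ,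
        FiniteDimensional ℂ (MvPolynomial σ ℂ ⧸ (RingHom.ker π ⊔ (mw w) ^ s)) ∧
        Module.finrank ℂ (MvPolynomial σ ℂ ⧸ (RingHom.ker π ⊔ (mw w) ^ s)) ≤ s * (s + 1) / 2 := by
  obtain ⟨Δ, hΔ, h⟩ := loc1 π hfrac x y halg hxy
  refine ⟨Δ, hΔ, fun w hw hwΔ s => ?_⟩
  obtain ⟨u1, u2, h1, h2, h3⟩ := h w hw hwΔ
  exact finrank_le (RingHom.ker π) (mw w) u1 u2 h1 h2
    (fun f => ⟨eval w f, sub_eval_mem w f⟩) h3 s

end points

end Pool.Agent.TH611.M5
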