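import Pool.Agent.TH880.N4.S0
import Pool.Agent.TH471.N4.Tr
import Pool.Agent.TH241.GR.G0b
import Pool.Agent.TH306.N4.StmtsU

/-!
The divisor of a section (statement `U2`).
-/

set_option autoImplicit false

namespace Pool.Agent.TH611.M5

open MvPolynomial Module Filter Topology Pool.Agent.TH279.GR Pool.Agent.TH306.N4

variable {a b : ℕ} {FF : Type} [Field FF] [Algebra ℂ FF]

/-- the generators of the divisor -/
def gens (π : Co a b →ₐ[ℂ] FF) (m : ℕ) (F : Co a b) : Set (Co a b) :=
  {f | ∃ u v : ℕ, f ∈ bh a b (u + m) v ∧ ∃ g ∈ bh a b u (v + m), π f = π F * π g}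

theorem divI_eq (P : Ideal (Co a b)) (π : Co a b →ₐ[ℂ] FF) (m : ℕ) (F : Co a b) :
    divI P π m F = P ⊔ Ideal.span (gens π m F) := rfl

theorem bhom_span (π : Co a b →ₐ[ℂ] FF) (m : ℕ) (F : Co a b) :
    BHom (Ideal.span (gens π m F)) := by
  intro f hf p
  obtain ⟨c, hc, rfl⟩ := (Submodule.mem_span_set (M := Co a b) (R := Co a b)).1 hf
  rw [Finsupp.sum, map_sum]
  refine Submodule.sum_mem _ fun s hs => ?_
  obtain ⟨u, v, hs1, g, hg, hsg⟩ := hc hs
  rw [smul_eq_mul, mul_comm]
  by_cases hle : (u + m, v) ≤ p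
  · obtain ⟨p', rfl⟩ := exists_add_of_le hle
    rw [G0bAux.comp_mul_add hs1]
    exact Ideal.mul_mem_right _ _ (Ideal.subset_span (hc hs))
  · rw [G0bAux.comp_mul_zero hs1 _ hle]
    exact zero_mem _

/-- the forms in the divisor ideal -/
theorem pi_mem_of_mem {P : Ideal (Co a b)} {i : Fin (a + 1)} {j : Fin (b + 1)}
    {π : Co a b →ₐ[ℂ] FF} (hM : Mod P i j π) {m : ℕ} {F : Co a b} {u v : ℕ} {f : Co a b}
    (hf : f ∈ bh a b (u + m) v) (hfd : f ∈ divI P π m F) :
    π f ∈ (TT π u (v + m)).map (LinearMap.mulLeft ℂ (π F)) := by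
  rw [divI_eq] at hfd
  obtain ⟨p, hp, h, hh, hph⟩ := Submodule.mem_sup.1 hfd
  obtain ⟨c, hc, hch⟩ := (Submodule.mem_span_set (M := Co a b) (R := Co a b)).1 hh
  have hsame : weightedHomogeneousComponent (wt a b) (u + m, v) f = f :=
    IsWeightedHomogeneous.weightedHomogeneousComponent_same hf
  rw [← hsame, ← hph, map_add, map_add]
  have hp0 : π (weightedHomogeneousComponent (wt a b) (u + m, v) p) = 0 :=
    (hM.ker _).2 (Ideal.mem_sup_left (hM.hom p hp _))
  rw [hp0, zero_add, ← hch, Finsupp.sum, map_sum, map_sum]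
  refine Submodule.sum_mem _ fun s hs => ?_
  obtain ⟨u', v', hs1, g, hg, hsg⟩ := hc hs
  rw [smul_eq_mul, mul_comm]
  by_cases hle : (u' + m, v') ≤ (u + m, v)
  · obtain ⟨⟨d, e⟩, hde⟩ := exists_add_of_le hle
    have hd : u = u' + d := by
      have := congrArg Prod.fst hde
      simp only [Prod.fst_add] at this
      omega
    have he : v = v' + e := congrArg Prod.snd hde
    rw [hde, G0bAux.comp_mul_add hs1, map_mul, hsg, mul_assoc, ← map_mul]
    refine ⟨π (g * weightedHomogeneousComponent (wt a b) (d, e) (c s)), ?_, rfl⟩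
    refine ⟨_, ?_, rfl⟩
    have h1 := Pool.Agent.TH880.N4.bh_mul hg
      (weightedHomogeneousComponent_isWeightedHomogeneous (w := wt a b) (d, e) (c s) :
        weightedHomogeneousComponent (wt a b) (d, e) (c s) ∈ bh a b d e)
    have e1 : v' + m + e = v + m := by omega
    rw [← hd, e1] at h1
    exact h1
  · rw [G0bAux.comp_mul_zero hs1 _ hle, map_zero]
    exact zero_mem _

/-- **U2** -/
theorem u2 : U2 := by
  intro a b P i j FF _ _ π hM m F hSec hF0
  obtain ⟨c, hc⟩ := hSec
  have hall : ∀ {u v : ℕ}, c ≤ u → c ≤ v → ∀ f ∈ TT π u (v + m), π F * f ∈ TT π (u + m) v :=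
    fun hu hv => Pool.Agent.TH880.N4.Sec_all hc hu hv
  -- a generator with image `π F`
  obtain ⟨f0, hf0, hf0F⟩ : ∃ f0 ∈ bh a b (c + m) c, π f0 = π F := by
    have h1 := hall (le_refl c) (le_refl c) 1 (Pool.Agent.TH880.N4.one_mem_TT hM c (c + m))
    rw [mul_one] at h1
    obtain ⟨f0, h2, h3⟩ := h1
    exact ⟨f0, h2, h3⟩
  have hf0g : f0 ∈ gens π m F := by
    obtain ⟨g, hg, hg1⟩ := Pool.Agent.TH880.N4.one_mem_TT hM c (c + m)
    refine ⟨c, c, hf0, g, hg, ?_⟩
    have hg1 : π g = 1 := hg1
    rw [hg1, mul_one, hf0F]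
  have hf0P : f0 ∉ chart i j P := fun h => hF0 (by rw [← hf0F]; exact (hM.ker _).2 h)
  refine ⟨?_, ?_, ?_, c, fun u v hu hv => ?_⟩
  · rw [divI_eq]
    exact hM.hom.sup (bhom_span π m F)
  · refine lt_of_le_of_ne le_sup_left fun h => ?_
    apply hf0P
    refine Ideal.mem_sup_left ?_
    rw [h, divI_eq]
    exact Ideal.mem_sup_right (Ideal.subset_span hf0g)
  · have hcP : chart i j P ≤ chart i j (divI P π m F) :=
      sup_le_sup_right (by rw [divI_eq]; exact le_sup_left) _
    apply le_antisymm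
    · have h1 : divI P π m F ≤ chart i j P ⊔ Ideal.span {F} := by
        rw [divI_eq]
        refine sup_le (le_sup_left.trans le_sup_left) ?_
        rw [Ideal.span_le]
        rintro s ⟨u, v, hs, g, hg, hsg⟩
        have h2 : s - F * g ∈ chart i j P := by
          rw [← hM.ker, map_sub, map_mul, hsg, sub_self]
        have h3 : s = (s - F * g) + g * F := by ring
        rw [SetLike.mem_coe, h3]
        exact Submodule.add_mem_sup h2 (Ideal.mul_mem_left _ _ (Ideal.mem_span_singleton_self F))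
      exact sup_le h1 (le_sup_right.trans le_sup_left)
    · refine sup_le hcP ?_
      rw [Ideal.span_le, Set.singleton_subset_iff, SetLike.mem_coe]
      have h2 : F - f0 ∈ chart i j P := by
        rw [← hM.ker, map_sub, hf0F, sub_self]
      have h4 : f0 ∈ chart i j (divI P π m F) := by
        refine Ideal.mem_sup_left ?_
        rw [divI_eq]
        exact Ideal.mem_sup_right (Ideal.subset_span hf0g)
      have h5 := add_mem (hcP h2) h4
      rwa [sub_add_cancel] at h5
  · -- Hilbert functions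
    set S : Submodule ℂ FF := (TT π u (v + m)).map (LinearMap.mulLeft ℂ (π F)) with hS
    have hST : S ≤ TT π (u + m) v := by
      rintro _ ⟨t, ht, rfl⟩
      exact hall hu hv t ht
    have hinj : Function.Injective (LinearMap.mulLeft ℂ (π F)) := fun x y hxy =>
      mul_left_cancel₀ hF0 hxy
    have hSr : finrank ℂ S = hf P u (v + m) := by
      rw [← Pool.Agent.TH471.N4.finrank_TT hM u (v + m)]
      exact (LinearEquiv.finrank_eq (Submodule.equivMapOfInjective _ hinj _)).symm
    have hfb := Pool.Agent.TH880.N4.finite_bh (a := a) (b := b) (u + m) v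
    have hfT : Module.Finite ℂ (TT π (u + m) v) := Module.Finite.map _ _
    have h1 : hf (divI P π m F) (u + m) v = finrank ℂ ((TT π (u + m) v).map S.mkQ) := by
      have h2 : (TT π (u + m) v).map S.mkQ = (bh a b (u + m) v).map (S.mkQ.comp π.toLinearMap) := by
        rw [Submodule.map_comp]
        rfl
      rw [h2]
      refine Pool.Agent.TH471.N4.finrank_map_eq _ _ _ fun x hx => ?_
      rw [AlgHom.toLinearMap_apply, Ideal.Quotient.mkₐ_eq_mk, Ideal.Quotient.eq_zero_iff_mem,
        LinearMap.comp_apply, AlgHom.toLinearMap_apply, Submodule.mkQ_apply,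
        Submodule.Quotient.mk_eq_zero]
      constructor
      · intro h
        exact pi_mem_of_mem hM hx h
      · rintro ⟨t, ⟨g, hg, rfl⟩, ht⟩
        rw [divI_eq]
        refine Ideal.mem_sup_right (Ideal.subset_span ⟨u, v, hx, g, hg, ?_⟩)
        exact ht.symm
    have h3 := LinearMap.finrank_range_add_finrank_ker (S.mkQ.domRestrict (TT π (u + m) v))
    rw [LinearMap.range_domRestrict, LinearMap.ker_domRestrict, Submodule.ker_mkQ,
      LinearEquiv.finrank_eq (Submodule.comapSubtypeEquivOfLe hST),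
      Pool.Agent.TH471.N4.finrank_TT hM, hSr, ← h1] at h3
    exact h3

end Pool.Agent.TH611.M5
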