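import Pool.Agent.TH611.M5.U6

/-!
The multiplicity of the divisor of a section (statement `U5`).
-/

set_option autoImplicit false

namespace Pool.Agent.TH611.M5

open MvPolynomial Module Filter Topology Pool.Agent.TH279.GR Pool.Agent.TH306.N4

/-- **U5** -/
theorem u5' : U5 := by
  intro a b P i j w hPp hPh hw hsm s F hF hFJ N hN hNF l hl μ hμ
  set J := chart i j P with hJ
  -- local inequality
  have hloc : ∀ K, s ≤ K → K * (K + 1) / 2 ≤ (K - s) * (K - s + 1) / 2 +
      (l.map fun q => finrank ℂ (Co a b ⧸ (chart i j q.1 ⊔ mx w ^ K))).sum := by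
    intro K hK
    have h1 := finrank_step (A := Co a b) (I := J ⊔ mx w ^ K) (Q := J ⊔ mx w ^ (K - s))
      (I' := chart i j N ⊔ mx w ^ K) (x := F) (finite_quot w _ _) (finite_quot w _ _)
      (fun f hf => by
        obtain ⟨g, hg, r, hr, rfl⟩ := Submodule.mem_sup.1 hf
        obtain ⟨g', hg', r', hr', hF'⟩ := Submodule.mem_sup.1 hF
        rw [mul_add, ← hF']
        have h2 : (g' + r') * g + (g' + r') * r = ((g' + r') * g + g' * r) + r' * r := by ring
        rw [h2]
        refine Submodule.add_mem_sup (add_mem (Ideal.mul_mem_left _ _ hg)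
          (Ideal.mul_mem_right _ _ hg')) ?_
        have h3 : mx w ^ K = mx w ^ s * mx w ^ (K - s) := by
          rw [← pow_add]; congr 1; omega
        rw [h3]
        exact Ideal.mul_mem_mul hr' hr)
      (by rw [hNF]; ac_rfl)
    rw [hsm K, hsm (K - s)] at h1
    refine h1.trans (Nat.add_le_add_left ?_ _)
    have h4 := u5 i j w K hl
    have h5 : finrank ℂ (Co a b ⧸ (chart i j (⊤ : Ideal (Co a b)) ⊔ mx w ^ K)) = 0 := by
      have h6 : chart i j (⊤ : Ideal (Co a b)) ⊔ mx w ^ K = ⊤ := by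
        unfold chart
        rw [top_sup_eq, top_sup_eq]
      rw [h6]
      have : Subsingleton (Co a b ⧸ (⊤ : Ideal (Co a b))) := Ideal.Quotient.subsingleton_iff.2 rfl
      exact finrank_zero_of_subsingleton
    omega
  -- the limit
  have hsum : Tendsto (fun K : ℕ =>
      (((l.map fun q => finrank ℂ (Co a b ⧸ (chart i j q.1 ⊔ mx w ^ K))).sum : ℕ) : ℝ) / K)
      atTop (𝓝 (l.map fun t => μ t.1).sum) := by
    clear hloc hl
    induction l with
    | nil => simp
    | cons t l ih =>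
      have h1 := hμ t (by simp)
      have h2 := ih fun t' ht' => hμ t' (List.mem_cons_of_mem _ ht')
      have h3 := h1.add h2
      rw [List.map_cons, List.sum_cons]
      refine h3.congr fun K => ?_
      rw [List.map_cons, List.sum_cons]
      push_cast
      ring
  have hlow : Tendsto (fun K : ℕ => (s : ℝ) + ((s : ℝ) - s ^ 2) / 2 * (1 / (K : ℝ))) atTop
      (𝓝 ((s : ℝ) + ((s : ℝ) - s ^ 2) / 2 * 0)) :=
    tendsto_const_nhds.add (tendsto_const_nhds.mul tendsto_one_div_atTop_nhds_zero_nat)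
  rw [mul_zero, add_zero] at hlow
  refine le_of_tendsto_of_tendsto hlow hsum ?_
  filter_upwards [eventually_ge_atTop (s + 1)] with K hK
  have hK0 : (0 : ℝ) < K := by
    have : 0 < K := by omega
    exact_mod_cast this
  rw [le_div_iff₀ hK0]
  have h1 := hloc K (by omega)
  have e1 : ((K * (K + 1) / 2 : ℕ) : ℝ) = (K : ℝ) * (K + 1) / 2 := by
    rw [Nat.cast_div (Nat.even_mul_succ_self K).two_dvd (by norm_num)]
    push_cast; ring
  have e2 : (((K - s) * (K - s + 1) / 2 : ℕ) : ℝ) = ((K : ℝ) - s) * (K - s + 1) / 2 := by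
    rw [Nat.cast_div (Nat.even_mul_succ_self (K - s)).two_dvd (by norm_num)]
    push_cast [Nat.cast_sub (show s ≤ K by omega)]; ring
  have h2 : ((K * (K + 1) / 2 : ℕ) : ℝ) ≤ (((K - s) * (K - s + 1) / 2 : ℕ) : ℝ) +
      (((l.map fun q => finrank ℂ (Co a b ⧸ (chart i j q.1 ⊔ mx w ^ K))).sum : ℕ) : ℝ) := by
    exact_mod_cast h1
  rw [e1, e2] at h2
  have e3 : ((s : ℝ) + ((s : ℝ) - s ^ 2) / 2 * (1 / (K : ℝ))) * K =
      s * K + ((s : ℝ) - s ^ 2) / 2 := by
    field_simp
  rw [e3]
  nlinarith [h2]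

end Pool.Agent.TH611.M5
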