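import Pool.Agent.TH880.N4.S0
import Pool.Agent.TH471.N4.Tr
import Pool.Agent.TH241.GR.G0b
import Pool.Agent.TH306.N4.StmtsV

/-!
The divisor of a section of `m A - p B` (statements `V0`, `V2`).
-/

set_option autoImplicit false

namespace Pool.Agent.TH611.M5

open MvPolynomial Module Filter Topology Pool.Agent.TH279.GR Pool.Agent.TH306.N4

variable {a b : ℕ} {FF : Type} [Field FF] [Algebra ℂ FF]

/-- twisting -/
theorem Sec2_all {π : Co a b →ₐ[ℂ] FF} {m q c : ℕ} {ψ : FF}
    (h : ∀ f ∈ TT π c (c + q), ψ * f ∈ TT π (c + m) c) {u v : ℕ} (hu : c ≤ u)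
    (hv : c ≤ v) : ∀ f ∈ TT π u (v + q), ψ * f ∈ TT π (u + m) v := by
  obtain ⟨d, rfl⟩ := Nat.exists_eq_add_of_le hu
  obtain ⟨e, rfl⟩ := Nat.exists_eq_add_of_le hv
  intro f hf
  have e1 : c + e + q = (c + q) + e := by ring
  have e2 : c + d + m = (c + m) + d := by ring
  rw [e1, Pool.Agent.TH880.N4.TT_add] at hf
  rw [e2, Pool.Agent.TH880.N4.TT_add]
  induction hf using Submodule.mul_induction_on' with
  | mem_mul_mem x hx y hy =>
    rw [← mul_assoc]
    exact Submodule.mul_mem_mul (h x hx) hy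
  | add x _ y _ hx hy =>
    rw [mul_add]
    exact add_mem hx hy

/-- the sections form a subspace -/
def secSub (π : Co a b →ₐ[ℂ] FF) (m q : ℕ) : Submodule ℂ FF where
  carrier := {ψ | Sec2 π m q ψ}
  zero_mem' := ⟨0, fun f _ => by rw [zero_mul]; exact zero_mem _⟩
  add_mem' := by
    rintro x y ⟨c, hc⟩ ⟨d, hd⟩
    refine ⟨max c d, fun f hf => ?_⟩
    rw [add_mul]
    exact add_mem (Sec2_all hc (le_max_left _ _) (le_max_left _ _) f hf)
      (Sec2_all hd (le_max_right _ _) (le_max_right _ _) f hf)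
  smul_mem' := by
    rintro t x ⟨c, hc⟩
    refine ⟨c, fun f hf => ?_⟩
    rw [smul_mul_assoc]
    exact Submodule.smul_mem _ _ (hc f hf)

/-- **V0** -/
theorem v0 : V0 := by
  intro a b P i j FF _ _ π hM m q
  refine ⟨fun ψ => ⟨fun h => ?_, fun h => Submodule.subset_span h⟩, ?_⟩
  · have h1 : SecM2 π m q ≤ secSub π m q := Submodule.span_le.2 fun x hx => hx
    exact h1 h
  · rintro ψ ⟨c, hc⟩
    have h1 := hc 1 (Pool.Agent.TH880.N4.one_mem_TT hM c (c + q))
    rw [mul_one] at h1
    obtain ⟨F, -, hF⟩ := h1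
    exact ⟨F, hF⟩

/-- the generators of the divisor -/
def gens2 (π : Co a b →ₐ[ℂ] FF) (m q : ℕ) (F : Co a b) : Set (Co a b) :=
  {f | ∃ u v : ℕ, f ∈ bh a b (u + m) v ∧ ∃ g ∈ bh a b u (v + q), π f = π F * π g}

theorem divI2_eq (P : Ideal (Co a b)) (π : Co a b →ₐ[ℂ] FF) (m q : ℕ) (F : Co a b) :
    divI2 P π m q F = P ⊔ Ideal.span (gens2 π m q F) := rfl

theorem bhom_span2 (π : Co a b →ₐ[ℂ] FF) (m q : ℕ) (F : Co a b) :
    BHom (Ideal.span (gens2 π m q F)) := by
  intro f hf d
  obtain ⟨c, hc, rfl⟩ := (Submodule.mem_span_set (M := Co a b) (R := Co a b)).1 hf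
  rw [Finsupp.sum, map_sum]
  refine Submodule.sum_mem _ fun s hs => ?_
  obtain ⟨u, v, hs1, g, hg, hsg⟩ := hc hs
  rw [smul_eq_mul, mul_comm]
  by_cases hle : (u + m, v) ≤ d
  · obtain ⟨d', rfl⟩ := exists_add_of_le hle
    rw [G0bAux.comp_mul_add hs1]
    exact Ideal.mul_mem_right _ _ (Ideal.subset_span (hc hs))
  · rw [G0bAux.comp_mul_zero hs1 _ hle]
    exact zero_mem _

/-- the forms in the divisor ideal -/
theorem pi_mem_of_mem2 {P : Ideal (Co a b)} {i : Fin (a + 1)} {j : Fin (b + 1)}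
    {π : Co a b →ₐ[ℂ] FF} (hM : Mod P i j π) {m q : ℕ} {F : Co a b} {u v : ℕ} {f : Co a b}
    (hf : f ∈ bh a b (u + m) v) (hfd : f ∈ divI2 P π m q F) :
    π f ∈ (TT π u (v + q)).map (LinearMap.mulLeft ℂ (π F)) := by
  rw [divI2_eq] at hfd
  obtain ⟨r, hr, h, hh, hrh⟩ := Submodule.mem_sup.1 hfd
  obtain ⟨c, hc, hch⟩ := (Submodule.mem_span_set (M := Co a b) (R := Co a b)).1 hh
  have hsame : weightedHomogeneousComponent (wt a b) (u + m, v) f = f :=
    IsWeightedHomogeneous.weightedHomogeneousComponent_same hf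
  rw [← hsame, ← hrh, map_add, map_add]
  have hp0 : π (weightedHomogeneousComponent (wt a b) (u + m, v) r) = 0 :=
    (hM.ker _).2 (Ideal.mem_sup_left (hM.hom r hr _))
  rw [hp0, zero_add, ← hch, Finsupp.sum, map_sum, map_sum]
  refine Submodule.sum_mem _ fun s hs => ?_
  obtain ⟨u', v', hs1, g, hg, hsg⟩ := hc hs
  rw [smul_eq_mul, mul_comm]
  by_cases hle : (u' + m, v') ≤ (u + m, v)
  · obtain ⟨⟨d, e⟩, hde⟩ := exists_add_of_le hle
    have hd : u = u' + d := by
      have := congrArg Prod.fst hde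
      simp only [Prod.fst_add] at this
      omega
    have he : v = v' + e := congrArg Prod.snd hde
    rw [hde, G0bAux.comp_mul_add hs1, map_mul, hsg, mul_assoc, ← map_mul]
    refine ⟨π (g * weightedHomogeneousComponent (wt a b) (d, e) (c s)), ?_, rfl⟩
    refine ⟨_, ?_, rfl⟩
    have h1 := Pool.Agent.TH880.N4.bh_mul hg
      (weightedHomogeneousComponent_isWeightedHomogeneous (w := wt a b) (d, e) (c s) :
        weightedHomogeneousComponent (wt a b) (d, e) (c s) ∈ bh a b d e)
    have e1 : v' + q + e = v + q := by omega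
    rw [← hd, e1] at h1
    exact h1
  · rw [G0bAux.comp_mul_zero hs1 _ hle, map_zero]
    exact zero_mem _

/-- **V2** -/
theorem v2 : V2 := by
  intro a b P i j FF _ _ π hM m q F hSec hF0
  obtain ⟨c, hc⟩ := hSec
  have hall : ∀ {u v : ℕ}, c ≤ u → c ≤ v → ∀ f ∈ TT π u (v + q), π F * f ∈ TT π (u + m) v :=
    fun hu hv => Sec2_all hc hu hv
  -- a generator with image `π F`
  obtain ⟨f0, hf0, hf0F⟩ : ∃ f0 ∈ bh a b (c + m) c, π f0 = π F := by
    have h1 := hall (le_refl c) (le_refl c) 1 (Pool.Agent.TH880.N4.one_mem_TT hM c (c + q))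
    rw [mul_one] at h1
    obtain ⟨f0, h2, h3⟩ := h1
    exact ⟨f0, h2, h3⟩
  have hf0g : f0 ∈ gens2 π m q F := by
    obtain ⟨g, hg, hg1⟩ := Pool.Agent.TH880.N4.one_mem_TT hM c (c + q)
    refine ⟨c, c, hf0, g, hg, ?_⟩
    have hg1 : π g = 1 := hg1
    rw [hg1, mul_one, hf0F]
  have hf0P : f0 ∉ chart i j P := fun h => hF0 (by rw [← hf0F]; exact (hM.ker _).2 h)
  refine ⟨?_, ?_, ?_, c, fun u v hu hv => ?_⟩
  · rw [divI2_eq]
    exact hM.hom.sup (bhom_span2 π m q F)
  · refine lt_of_le_of_ne le_sup_left fun h => ?_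
    apply hf0P
    refine Ideal.mem_sup_left ?_
    rw [h, divI2_eq]
    exact Ideal.mem_sup_right (Ideal.subset_span hf0g)
  · have hcP : chart i j P ≤ chart i j (divI2 P π m q F) :=
      sup_le_sup_right (by rw [divI2_eq]; exact le_sup_left) _
    apply le_antisymm
    · have h1 : divI2 P π m q F ≤ chart i j P ⊔ Ideal.span {F} := by
        rw [divI2_eq]
        refine sup_le (le_sup_left.trans le_sup_left) ?_
        rw [Ideal.span_le]
        rintro s ⟨u, v, hs, g, hg, hsg⟩
        have h2 : s - F * g ∈ chart i j P := by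
          rw [← hM.ker, map_sub, map_mul, hsg, sub_self]
        have h3 : s = (s - F * g) + g * F := by ring
        rw [SetLike.mem_coe, h3]
        exact Submodule.add_mem_sup h2 (Ideal.mul_mem_left _ _ (Ideal.mem_span_singleton_self F))
      exact sup_le h1 (le_sup_right.trans le_sup_left)
    · refine sup_le hcP ?_
      rw [Ideal.span_le, Set.singleton_subset_iff, SetLike.mem_coe]
      have h2 : F - f0 ∈ chart i j P := by
        rw [← hM.ker, map_sub, hf0F, sub_self]
      have h4 : f0 ∈ chart i j (divI2 P π m q F) := by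
        refine Ideal.mem_sup_left ?_
        rw [divI2_eq]
        exact Ideal.mem_sup_right (Ideal.subset_span hf0g)
      have h5 := add_mem (hcP h2) h4
      rwa [sub_add_cancel] at h5
  · -- Hilbert functions
    set S : Submodule ℂ FF := (TT π u (v + q)).map (LinearMap.mulLeft ℂ (π F)) with hS
    have hST : S ≤ TT π (u + m) v := by
      rintro _ ⟨t, ht, rfl⟩
      exact hall hu hv t ht
    have hinj : Function.Injective (LinearMap.mulLeft ℂ (π F)) := fun x y hxy =>
      mul_left_cancel₀ hF0 hxy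
    have hSr : finrank ℂ S = hf P u (v + q) := by
      rw [← Pool.Agent.TH471.N4.finrank_TT hM u (v + q)]
      exact (LinearEquiv.finrank_eq (Submodule.equivMapOfInjective _ hinj _)).symm
    have hfb := Pool.Agent.TH880.N4.finite_bh (a := a) (b := b) (u + m) v
    have hfT : Module.Finite ℂ (TT π (u + m) v) := Module.Finite.map _ _
    have h1 : hf (divI2 P π m q F) (u + m) v = finrank ℂ ((TT π (u + m) v).map S.mkQ) := by
      have h2 : (TT π (u + m) v).map S.mkQ = (bh a b (u + m) v).map (S.mkQ.comp π.toLinearMap) := by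
        rw [Submodule.map_comp]
        rfl
      rw [h2]
      refine Pool.Agent.TH471.N4.finrank_map_eq _ _ _ fun x hx => ?_
      rw [AlgHom.toLinearMap_apply, Ideal.Quotient.mkₐ_eq_mk, Ideal.Quotient.eq_zero_iff_mem,
        LinearMap.comp_apply, AlgHom.toLinearMap_apply, Submodule.mkQ_apply,
        Submodule.Quotient.mk_eq_zero]
      constructor
      · intro h
        exact pi_mem_of_mem2 hM hx h
      · rintro ⟨t, ⟨g, hg, rfl⟩, ht⟩
        rw [divI2_eq]
        refine Ideal.mem_sup_right (Ideal.subset_span ⟨u, v, hx, g, hg, ?_⟩)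
        exact ht.symm
    have h3 := LinearMap.finrank_range_add_finrank_ker (S.mkQ.domRestrict (TT π (u + m) v))
    rw [LinearMap.range_domRestrict, LinearMap.ker_domRestrict, Submodule.ker_mkQ,
      LinearEquiv.finrank_eq (Submodule.comapSubtypeEquivOfLe hST),
      Pool.Agent.TH471.N4.finrank_TT hM, hSr, ← h1] at h3
    exact h3

end Pool.Agent.TH611.M5
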